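import Pool.Agent.PWL.St

/-!
# Campaign PWL: proof of `St_Frt`

Explicit moves on lists and the two permutations of a closed set.
-/

set_option autoImplicit false

open scoped BigOperators

namespace Pool.Agent.PWL

open Pool.Agent.PW Pool.Agent.PWM Pool.Agent.PWB Pool.Agent.PWX Pool.Agent.PWF
open scoped Classical

/-- (1) a handle moves to the left end. -/
private theorem Frt_left {G : Type} [Group G] (T : List (G × G)) (q : G × G) :
    ∀ P : List (G × G), LG (P ++ q :: T) (q :: (P.map (cj (dd q)⁻¹) ++ T)) := by
  obtain ⟨hrefl, htrans, _, happ, hswap, _, _⟩ := Pool.Agent.PWH.bBas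
  intro P
  induction P with
  | nil => exact hrefl _
  | cons p P ih =>
    have h1 := happ [p] _ _ [] ih
    have h2 := happ [] _ _ (P.map (cj (dd q)⁻¹) ++ T) (hswap p q)
    simp only [List.append_nil, List.nil_append, List.cons_append, List.map_cons] at h1 h2 ⊢
    exact htrans _ _ _ h1 h2

/-- (2) the slide. -/
private theorem Frt_slide {G : Type} [Group G] (p q : G × G) :
    LG [p, q] [(mg p q).1, (mg p q).2] ∧ (mg p q).1.2 = q.2 * p.2 := by
  obtain ⟨hrefl, htrans, _, happ, _, hrot, hsl⟩ := Pool.Agent.PWH.bBas
  refine ⟨?_, ?_⟩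
  · have h1 : LG [p, q] [p, rt q] := by
      have := happ [p] _ _ [] (hrot q)
      simpa only [List.append_nil, List.nil_append, List.cons_append] using this
    have h2 : LG [p, rt q] [p, rt (rt q)] := by
      have := happ [p] _ _ [] (hrot (rt q))
      simpa only [List.append_nil, List.nil_append, List.cons_append] using this
    have h3 := hsl p (rt (rt q))
    exact htrans _ _ _ h1 (htrans _ _ _ h2 h3)
  · show (tv (rt (rt q)))⁻¹ * p.2 = q.2 * p.2
    rw [tv_rt2, inv_inv]

private theorem Frt_rtinj {G : Type} [Group G] (p q : G × G) (h : rt p = rt q) : p = q := by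
  have h1 : p.2⁻¹ = q.2⁻¹ := congrArg Prod.fst h
  have h2 : p.2 * p.1 * p.2⁻¹ = q.2 * q.1 * q.2⁻¹ := congrArg Prod.snd h
  have h3 : p.2 = q.2 := inv_injective h1
  rw [h3] at h2
  have h4 : p.1 = q.1 := mul_left_cancel (mul_right_cancel h2)
  exact Prod.ext h4 h3

/-- (3) the slide is injective. -/
private theorem Frt_mginj {G : Type} [Group G] (p q p' q' : G × G) (h : mg p q = mg p' q') :
    p = p' ∧ q = q' := by
  have h1 : p.1 = p'.1 := congrArg (fun z => z.1.1) h
  have h2 : (tv (rt (rt q)))⁻¹ * p.2 = (tv (rt (rt q')))⁻¹ * p'.2 := congrArg (fun z => z.1.2) h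
  have h3 : (tv (rt (rt q)))⁻¹ * (p.2 * p.1 * p.2⁻¹) * tv (rt (rt q)) * (rt (rt q)).1 =
      (tv (rt (rt q')))⁻¹ * (p'.2 * p'.1 * p'.2⁻¹) * tv (rt (rt q')) * (rt (rt q')).1 :=
    congrArg (fun z => z.2.1) h
  have h4 : (rt (rt q)).2 = (rt (rt q')).2 := congrArg (fun z => z.2.2) h
  have key : ∀ (t s x : G), t⁻¹ * (s * x * s⁻¹) * t = (t⁻¹ * s) * x * (t⁻¹ * s)⁻¹ := by
    intro t s x
    group
  rw [key, key, h2, h1] at h3
  have h5 : (rt (rt q)).1 = (rt (rt q')).1 := mul_left_cancel h3
  have h6 : rt (rt q) = rt (rt q') := Prod.ext h5 h4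
  have h7 : q = q' := Frt_rtinj _ _ (Frt_rtinj _ _ h6)
  subst h7
  exact ⟨Prod.ext h1 (mul_left_cancel h2), rfl⟩

private noncomputable def Frt_en {G : Type} [Group G] (a : ℕ) (R : List (G × G)) : G × G :=
  (R[a]?).getD (1, 1)

private noncomputable def Frt_tl {G : Type} [Group G] (a : ℕ) (R : List (G × G)) : List (G × G) :=
  (R.take a).map (cj (dd (Frt_en a R))⁻¹) ++ R.drop (a + 1)

private theorem Frt_dec {G : Type} [Group G] (a : ℕ) (R : List (G × G)) (h : a < R.length) :
    R = R.take a ++ Frt_en a R :: R.drop (a + 1) := by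
  have h1 : Frt_en a R = R[a] := by
    unfold Frt_en
    rw [List.getElem?_eq_getElem h]
    rfl
  rw [h1, ← List.drop_eq_getElem_cons h, List.take_append_drop]

private theorem Frt_mv {G : Type} [Group G] (a : ℕ) (R : List (G × G)) (h : a < R.length) :
    LG R (Frt_en a R :: Frt_tl a R) := by
  have h1 := Frt_left (R.drop (a + 1)) (Frt_en a R) (R.take a)
  rw [← Frt_dec a R h] at h1
  exact h1

private theorem Frt_cjinj {G : Type} [Group G] (c : G) : Function.Injective (cj c) := by
  intro p q h
  have h1 : c * p.1 * c⁻¹ = c * q.1 * c⁻¹ := congrArg Prod.fst h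
  have h2 : c * p.2 * c⁻¹ = c * q.2 * c⁻¹ := congrArg Prod.snd h
  exact Prod.ext (mul_left_cancel (mul_right_cancel h1)) (mul_left_cancel (mul_right_cancel h2))

private theorem Frt_tlinj {G : Type} [Group G] (a : ℕ) (R R' : List (G × G)) (h : a < R.length)
    (h' : a < R'.length) (he : Frt_en a R = Frt_en a R') (ht : Frt_tl a R = Frt_tl a R') :
    R = R' := by
  unfold Frt_tl at ht
  rw [← he] at ht
  have hl : ((R.take a).map (cj (dd (Frt_en a R))⁻¹)).length =
      ((R'.take a).map (cj (dd (Frt_en a R))⁻¹)).length := by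
    rw [List.length_map, List.length_map, List.length_take, List.length_take]
    omega
  obtain ⟨h1, h2⟩ := List.append_inj ht hl
  have h3 : R.take a = R'.take a := (List.map_injective_iff.2 (Frt_cjinj _)) h1
  rw [Frt_dec a R h, Frt_dec a R' h', h3, h2, he]

private theorem Frt_tldrop {G : Type} [Group G] (a : ℕ) (R : List (G × G)) (h : a < R.length) :
    (Frt_tl a R).drop a = R.drop (a + 1) := by
  have hl : ((R.take a).map (cj (dd (Frt_en a R))⁻¹)).length = a := by
    rw [List.length_map, List.length_take]
    omega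
  unfold Frt_tl
  rw [List.drop_append_of_le_length (by omega), List.drop_of_length_le (by omega), List.nil_append]

/-- The map of (5). -/
private noncomputable def Frt_f {G : Type} [Group G] (a : ℕ) : List (G × G) → List (G × G)
  | [] => []
  | p :: R => (mg p (Frt_en a R)).1 :: (mg p (Frt_en a R)).2 :: Frt_tl a R

theorem thm_Frt : St_Frt := by
  refine ⟨fun P T q => Frt_left T q P, fun p q => Frt_slide p q, ?_, ?_, ?_⟩
  · intro G _ x y h
    obtain ⟨h1, h2⟩ := Frt_mginj x.1 x.2 y.1 y.2 h
    exact Prod.ext h1 h2
  · intro G _ j O hO a ha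
    refine ⟨fun L => Frt_en a L :: Frt_tl a L, ?_, ?_, ?_⟩
    · intro L hL
      have hl : a < L.length := by rw [hO.len L hL]; exact ha
      exact hO.mv L hL _ (Frt_mv a L hl)
    · intro L hL L' hL' h
      have hL1 : L ∈ O := hL
      have hL2 : L' ∈ O := hL'
      have hl : a < L.length := by rw [hO.len L hL1]; exact ha
      have hl' : a < L'.length := by rw [hO.len L' hL2]; exact ha
      have h1 : Frt_en a L :: Frt_tl a L = Frt_en a L' :: Frt_tl a L' := h
      obtain ⟨h2, h3⟩ := List.cons.inj h1
      exact Frt_tlinj a L L' hl hl' h2 h3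
    · intro L hL
      have hl : a < L.length := by rw [hO.len L hL]; exact ha
      refine ⟨?_, ?_⟩
      · show L[a]? = (Frt_en a L :: Frt_tl a L)[0]?
        rw [List.getElem?_cons_zero]
        unfold Frt_en
        rw [List.getElem?_eq_getElem hl]
        rfl
      · show (Frt_en a L :: Frt_tl a L).drop (a + 1) = L.drop (a + 1)
        rw [List.drop_succ_cons]
        exact Frt_tldrop a L hl
  · intro G _ j O hO a ha
    refine ⟨Frt_f a, ?_, ?_, ?_⟩
    · intro L hL
      have hlen := hO.len L hL
      cases L with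
      | nil =>
        exfalso
        simp only [List.length_nil] at hlen
        omega
      | cons p R =>
        have hl : a < R.length := by
          rw [List.length_cons] at hlen
          omega
        obtain ⟨_, htrans, _, happ, _, _, _⟩ := Pool.Agent.PWH.bBas
        have h1 := happ [p] _ _ [] (Frt_mv a R hl)
        have h2 := happ [] _ _ (Frt_tl a R) (Frt_slide p (Frt_en a R)).1
        simp only [List.append_nil, List.nil_append, List.cons_append] at h1 h2
        exact hO.mv _ hL _ (htrans _ _ _ h1 h2)
    · intro L hL L' hL' h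
      have hL1 : L ∈ O := hL
      have hL2 : L' ∈ O := hL'
      have hlen := hO.len L hL1
      have hlen' := hO.len L' hL2
      cases L with
      | nil =>
        exfalso
        simp only [List.length_nil] at hlen
        omega
      | cons p R =>
        cases L' with
        | nil =>
          exfalso
          simp only [List.length_nil] at hlen'
          omega
        | cons p' R' =>
          rw [List.length_cons] at hlen hlen'
          have h1 : (mg p (Frt_en a R)).1 :: (mg p (Frt_en a R)).2 :: Frt_tl a R =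
            (mg p' (Frt_en a R')).1 :: (mg p' (Frt_en a R')).2 :: Frt_tl a R' := h
          obtain ⟨h2, h3⟩ := List.cons.inj h1
          obtain ⟨h4, h5⟩ := List.cons.inj h3
          obtain ⟨h6, h7⟩ := Frt_mginj _ _ _ _ (Prod.ext h2 h4)
          have h8 := Frt_tlinj a R R' (by omega) (by omega) h7 h5
          rw [h6, h8]
    · intro L hL
      have hlen := hO.len L hL
      cases L with
      | nil =>
        exfalso
        simp only [List.length_nil] at hlen
        omega
      | cons p R =>
        show (mg p (Frt_en a R)).1.2 = (((p :: R)[a + 1]?).getD (1, 1)).2 * p.2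
        rw [(Frt_slide p (Frt_en a R)).2, List.getElem?_cons_succ]
        rfl

end Pool.Agent.PWL
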