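import Pool.Agent.PWL.St

/-!
# Campaign PWL: from trivial letters to a dead handle (helper85)

The handles with first value `1` are collected at the left end; the subgroup generated by their second
values at least doubles as long as no handle can be killed.
-/

set_option autoImplicit false

open scoped BigOperators

namespace Pool.Agent.PWL

open Pool.Agent.PW Pool.Agent.PWM Pool.Agent.PWB Pool.Agent.PWX Pool.Agent.PWF
open scoped Classical

private theorem Ded_card {G : Type} [Group G] [Finite G] {A B : Subgroup G} (h : A < B) :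
    2 * Nat.card A ≤ Nat.card B := by
  obtain ⟨k, hk⟩ := Subgroup.card_dvd_of_le h.le
  have hB : 0 < Nat.card B := Nat.card_pos
  rcases k with _ | _ | k
  · rw [mul_zero] at hk
    omega
  · exfalso
    apply h.ne
    apply Subgroup.eq_of_le_of_card_ge h.le
    rw [hk]
    simp
  · rw [hk]
    nlinarith [Nat.zero_le (Nat.card A * k)]

private theorem Ded_Gn {G : Type} [Group G] (Hs : List (G × G)) (x : G) (hx : x ∉ Gn Hs) :
    Gn Hs < Gn (Hs ++ [(1, x)]) := by
  apply lt_of_le_of_ne
  · apply Subgroup.closure_mono
    rintro q ⟨p, hp, h⟩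
    exact ⟨p, List.mem_append_left _ hp, h⟩
  · intro h
    apply hx
    rw [h]
    apply Subgroup.subset_closure
    exact ⟨(1, x), List.mem_append_right _ (List.mem_singleton.2 rfl), Or.inr rfl⟩

theorem thm_Ded : St_Ded := by
  intro hF G _ _ K hK L hL
  obtain ⟨hrefl, htrans, -, happ, -, hrt, -⟩ := PWH.bBas
  obtain ⟨hFr, -⟩ := hF
  have key : ∀ r ≤ Nat.log 2 (Nat.card G) + 1, (∃ L', LG L ((1, 1) :: L')) ∨
      ∃ Hs M : List (G × G), LG L (Hs ++ M) ∧ Hs.length = r ∧ 2 ^ r ≤ Nat.card (Gn Hs) := by
    intro r
    induction r with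
    | zero =>
      intro _
      right
      exact ⟨[], L, hrefl L, rfl, Nat.card_pos⟩
    | succ r ih =>
      intro hr
      rcases ih (by omega) with h | ⟨Hs, M, h1, h2, h3⟩
      · exact Or.inl h
      · have hl := h1.1
        rw [List.length_append, h2] at hl
        obtain ⟨p, M', hp, hp2⟩ := hK M (by omega)
        have h4 : LG M ((1, p.1) :: M') := by
          have h5 := happ [] [p] [rt p] M' (hrt p)
          have h6 : rt p = (1, p.1) := by
            simp [rt, hp2]
          rw [h6] at h5
          exact htrans _ _ _ hp h5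
        have h7 : LG L (Hs ++ (1, p.1) :: M') := by
          have h8 := happ Hs M ((1, p.1) :: M') [] h4
          simp only [List.append_nil] at h8
          exact htrans _ _ _ h1 h8
        by_cases hx : p.1 ∈ Gn Hs
        · left
          have h9 : LG (Hs ++ (1, p.1) :: M') ((1, p.1) :: (Hs ++ M')) := by
            have h10 := hFr Hs M' ((1, p.1) : G × G)
            have h11 : Hs.map (cj (dd ((1, p.1) : G × G))⁻¹) = Hs := by
              have h12 : (cj (dd ((1, p.1) : G × G))⁻¹ : G × G → G × G) = id := by
                funext q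
                simp [cj, dd]
              rw [h12, List.map_id]
            rw [h11] at h10
            exact h10
          obtain ⟨v, hv, L'', -, hPs⟩ := PWH.bBlk (⊥ : Subgroup G) inferInstance
            (fun x hx y hy => by
              rw [Subgroup.mem_bot.1 hx, Subgroup.mem_bot.1 hy]) 1 (one_mem _) p.1 Hs Hs
            (((PWH.bEqb (⊥ : Subgroup G) inferInstance).1) Hs) p.1⁻¹ (inv_mem hx)
          have h13 := hPs 1 (one_mem _)
          rw [Subgroup.mem_bot.1 hv] at h13
          simp only [mul_one, inv_mul_cancel] at h13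
          have h14 := happ [] _ _ M' h13
          refine ⟨L'' ++ M', htrans _ _ _ h7 (htrans _ _ _ h9 ?_)⟩
          simpa using h14
        · right
          refine ⟨Hs ++ [(1, p.1)], M', ?_, ?_, ?_⟩
          · simpa using h7
          · simp [h2]
          · calc 2 ^ (r + 1) = 2 * 2 ^ r := pow_succ' 2 r
              _ ≤ 2 * Nat.card (Gn Hs) := Nat.mul_le_mul_left 2 h3
              _ ≤ _ := Ded_card (Ded_Gn Hs p.1 hx)
  rcases key _ le_rfl with h | ⟨Hs, M, -, -, h3⟩
  · exact h
  · exfalso
    have h4 : Nat.card (Gn Hs) ≤ Nat.card G := Subgroup.card_le_card_group _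
    have h5 := Nat.lt_pow_succ_log_self (b := 2) (by norm_num) (Nat.card G)
    have h6 : 2 ^ (Nat.log 2 (Nat.card G) + 1) = 2 ^ (Nat.log 2 (Nat.card G)).succ := rfl
    omega

end Pool.Agent.PWL
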