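import Pool.Agent.PWL.StA

/-!
# Campaign PWL, module Dsb: the sets of products (helper76)
-/

set_option autoImplicit false

open scoped BigOperators

namespace Pool.Agent.PWL

open scoped Classical

private lemma Dsb_one {G : Type} [Group G] (H : Subgroup G) (xs : List G) :
    1 ∈ Ds H xs ∧ ∀ d ∈ Ds H xs, d ∈ H := by
  induction xs with
  | nil =>
    refine ⟨Finset.mem_singleton_self 1, ?_⟩
    intro d hd
    have h1 : d = 1 := Finset.mem_singleton.1 hd
    rw [h1]
    exact H.one_mem
  | cons x xs ih =>
    by_cases hx : x ∈ H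
    · have e : Ds H (x :: xs) = Ds H xs ∪ (Ds H xs).image (fun d => d * x) := by
        rw [Ds, if_pos hx]
      rw [e]
      refine ⟨Finset.mem_union_left _ ih.1, ?_⟩
      intro d hd
      rcases Finset.mem_union.1 hd with h1 | h1
      · exact ih.2 d h1
      · obtain ⟨c, hc, rfl⟩ := Finset.mem_image.1 h1
        exact H.mul_mem (ih.2 c hc) hx
    · have e : Ds H (x :: xs) = Ds H xs := by
        rw [Ds, if_neg hx]
      rw [e]
      exact ih

private lemma Dsb_drop {G : Type} [Group G] (H : Subgroup G) (xs : List G) :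
    ∀ i : ℕ, Ds H (xs.drop i) ⊆ Ds H xs := by
  induction xs with
  | nil =>
    intro i
    rw [List.drop_nil]
  | cons x xs ih =>
    intro i
    cases i with
    | zero => exact Finset.Subset.refl _
    | succ i =>
      rw [List.drop_succ_cons]
      refine (ih i).trans ?_
      by_cases hx : x ∈ H
      · rw [Ds, if_pos hx]
        exact Finset.subset_union_left
      · rw [Ds, if_neg hx]

/-- the sets of products -/
theorem thm_Dsb : St_Dsb := by
  intro G _ _ H
  refine ⟨Dsb_one H, Dsb_drop H, ?_⟩
  intro D hD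
  have e1 : ∀ x : G, (if x ∈ H then ((D ∩ D.image (fun d => d * x)).card : ℝ) else 0) =
      ∑ d ∈ D, ∑ c ∈ D, if d * x = c then (1 : ℝ) else 0 := by
    intro x
    have e2 : ∀ d ∈ D, (∑ c ∈ D, if d * x = c then (1 : ℝ) else 0) =
        if d * x ∈ D then 1 else 0 := by
      intro d _
      exact Finset.sum_ite_eq D (d * x) (fun _ => (1 : ℝ))
    rw [Finset.sum_congr rfl e2]
    by_cases hx : x ∈ H
    · rw [if_pos hx, Finset.sum_boole]
      congr 1
      have e3 : D ∩ D.image (fun d => d * x) = (D.filter fun d => d * x ∈ D).image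
          (fun d => d * x) := by
        ext c
        simp only [Finset.mem_inter, Finset.mem_image, Finset.mem_filter]
        constructor
        · rintro ⟨hc, d, hd, rfl⟩
          exact ⟨d, ⟨hd, hc⟩, rfl⟩
        · rintro ⟨d, ⟨hd, hc⟩, rfl⟩
          exact ⟨hc, d, hd, rfl⟩
      rw [e3, Finset.card_image_of_injective _ (mul_left_injective x)]
    · rw [if_neg hx]
      refine (Finset.sum_eq_zero fun d hd => ?_).symm
      rw [if_neg]
      intro hc
      apply hx
      have h1 := H.mul_mem (H.inv_mem (hD d hd)) (hD _ hc)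
      rwa [inv_mul_cancel_left] at h1
  rw [Finset.sum_congr rfl fun x _ => e1 x, Finset.sum_comm]
  have e4 : ∀ d ∈ D, (∑ x : G, ∑ c ∈ D, if d * x = c then (1 : ℝ) else 0) = D.card := by
    intro d _
    rw [Finset.sum_comm]
    have e5 : ∀ c ∈ D, (∑ x : G, if d * x = c then (1 : ℝ) else 0) = 1 := by
      intro c _
      rw [Finset.sum_eq_single (d⁻¹ * c)]
      · rw [mul_inv_cancel_left, if_pos rfl]
      · intro x _ hx
        rw [if_neg]
        intro hh
        apply hx
        rw [← hh, inv_mul_cancel_left]
      · intro hh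
        exact absurd (Finset.mem_univ _) hh
    rw [Finset.sum_congr rfl e5, Finset.sum_const, nsmul_eq_mul, mul_one]
  rw [Finset.sum_congr rfl e4, Finset.sum_const, nsmul_eq_mul, sq]

end Pool.Agent.PWL
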