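import Pool.Agent.PWL.St

/-!
# Campaign PWL: pigeonhole for the energy (helper91)

Statement of helper1, `PWL.St_Eng`.
-/

set_option autoImplicit false

open scoped BigOperators

namespace Pool.Agent.PWL

open Pool.Agent.PW Pool.Agent.PWM Pool.Agent.PWB Pool.Agent.PWX Pool.Agent.PWF Pool.Agent.PWH
open scoped Classical

private theorem Eng_sum {Ω G : Type} [Fintype G] (O : Finset Ω) (W : Ω → G) :
    ∑ g, (cnt O W g : ℝ) = O.card := by
  have h := Finset.card_eq_sum_card_fiberwise (f := W) (s := O) (t := Finset.univ)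
    (fun x _ => Finset.mem_coe.2 (Finset.mem_univ _))
  rw [h]
  push_cast
  rfl

private theorem Eng_le {Ω G : Type} [Fintype G] (O : Finset Ω) (W : Ω → G) : en O W ≤ 1 := by
  by_cases h : O.card = 0
  · unfold en
    rw [h]
    simp
  · have hpos : (0 : ℝ) < O.card := by exact_mod_cast Nat.pos_of_ne_zero h
    unfold en
    calc ∑ g : G, ((cnt O W g : ℝ) / O.card) ^ 2 ≤ ∑ g : G, (cnt O W g : ℝ) / O.card := by
          refine Finset.sum_le_sum fun g _ => ?_
          have h0 : (0 : ℝ) ≤ (cnt O W g : ℝ) / O.card := by positivity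
          have h1 : (cnt O W g : ℝ) / O.card ≤ 1 := by
            rw [div_le_one hpos]
            exact_mod_cast Finset.card_filter_le _ _
          nlinarith
      _ = 1 := by
          rw [← Finset.sum_div, Eng_sum, div_self hpos.ne']

private theorem Eng_ge {Ω G : Type} [Fintype G] (O : Finset Ω) (W : Ω → G) (hO : O.Nonempty) :
    1 ≤ (Fintype.card G : ℝ) * en O W := by
  have hpos : (0 : ℝ) < O.card := by exact_mod_cast hO.card_pos
  have h := sq_sum_le_card_mul_sum_sq (s := (Finset.univ : Finset G))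
    (f := fun g => (cnt O W g : ℝ) / O.card)
  rw [← Finset.sum_div, Eng_sum, div_self hpos.ne', one_pow] at h
  exact h

private theorem Eng_mem {Ω B : Type} {O : Finset Ω} {τ : Ω → B} {b : B} {ω : Ω} :
    ω ∈ fib O τ b ↔ ω ∈ O ∧ τ ω = b := by
  unfold fib
  exact Finset.mem_filter

private theorem Eng_card {Ω B : Type} [DecidableEq B] (O : Finset Ω) (τ : Ω → B) :
    ∑ t ∈ O.image τ, ((fib O τ t).card : ℝ) = O.card := by
  have h := Finset.card_eq_sum_card_image τ O
  rw [h]
  push_cast
  refine Finset.sum_congr rfl fun t _ => ?_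
  congr 2
  ext ω
  rw [Eng_mem, Finset.mem_filter]

private theorem Eng_hd {G : Type} [Group G] (n : ℕ) (L : List (G × G)) :
    hd2 (L.take (1 + n)) = hd2 L := by
  unfold hd2
  cases L with
  | nil => simp
  | cons a L =>
    rw [add_comm, List.take_succ_cons]
    rfl

private theorem Eng_inj {G : Type} (O : Finset (List G)) (n : ℕ) (t : List G) :
    Set.InjOn (List.take n) (fib O (List.drop n) t : Set (List G)) := by
  intro L hL L' hL' e
  have h1 : L.drop n = t := (Eng_mem.1 (Finset.mem_coe.1 hL)).2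
  have h2 : L'.drop n = t := (Eng_mem.1 (Finset.mem_coe.1 hL')).2
  have e' : L.take n = L'.take n := e
  rw [← List.take_append_drop n L, ← List.take_append_drop n L', h1, h2, e']

private theorem Eng_en {G : Type} [Group G] [Fintype G] (O : Finset (List (G × G))) (n : ℕ)
    (t : List (G × G)) :
    en ((fib O (List.drop (1 + n)) t).image (List.take (1 + n))) hd2 =
      en (fib O (List.drop (1 + n)) t) hd2 := by
  have hinj := Eng_inj O (1 + n) t
  have h1 : ((fib O (List.drop (1 + n)) t).image (List.take (1 + n))).card =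
      (fib O (List.drop (1 + n)) t).card := Finset.card_image_of_injOn hinj
  have h2 : ∀ g : G, cnt ((fib O (List.drop (1 + n)) t).image (List.take (1 + n))) hd2 g =
      cnt (fib O (List.drop (1 + n)) t) hd2 g := by
    intro g
    unfold cnt
    rw [Finset.filter_image, Finset.card_image_of_injOn
      (hinj.mono (Finset.coe_subset.2 (Finset.filter_subset _ _)))]
    congr 1
    refine Finset.filter_congr fun L _ => ?_
    rw [Eng_hd]
  unfold en
  rw [h1]
  refine Finset.sum_congr rfl fun g _ => ?_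
  rw [h2]

private theorem Eng_cl {G : Type} [Group G] (O : Finset (List (G × G))) (k n : ℕ) (hn : n ≤ k)
    (hO : Cl k O) (t : List (G × G)) (ht : t ∈ O.image (List.drop n)) :
    Cl n ((fib O (List.drop n) t).image (List.take n)) ∧
      ∀ L ∈ (fib O (List.drop n) t).image (List.take n), L ++ t ∈ O := by
  obtain ⟨_, _, _, bapp, _, _, _⟩ := bBas
  have happ : ∀ L ∈ (fib O (List.drop n) t).image (List.take n), L ++ t ∈ O ∧ L.length = n := by
    intro L hL
    obtain ⟨L₀, h0, rfl⟩ := Finset.mem_image.1 hL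
    obtain ⟨h1, h2⟩ := Eng_mem.1 h0
    have h3 : L₀.take n ++ t = L₀ := by rw [← h2, List.take_append_drop]
    rw [h3]
    refine ⟨h1, ?_⟩
    rw [List.length_take, hO.len L₀ h1]
    exact min_eq_left hn
  refine ⟨⟨?_, fun L hL => (happ L hL).2, ?_⟩, fun L hL => (happ L hL).1⟩
  · obtain ⟨L, hL, h⟩ := Finset.mem_image.1 ht
    exact ⟨L.take n, Finset.mem_image_of_mem _ (Eng_mem.2 ⟨hL, h⟩)⟩
  · intro L hL L' hLL
    obtain ⟨h1, h2⟩ := happ L hL
    have h3 : LG ([] ++ L ++ t) ([] ++ L' ++ t) := bapp [] L L' t hLL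
    rw [List.nil_append, List.nil_append] at h3
    have h4 : L' ++ t ∈ O := hO.mv _ h1 _ h3
    have h5 : L'.length = n := by rw [← hLL.1, h2]
    refine Finset.mem_image.2 ⟨L' ++ t, Eng_mem.2 ⟨h4, ?_⟩, ?_⟩
    · rw [← h5]
      exact List.drop_left
    · rw [← h5]
      exact List.take_left

private theorem Eng_ind {G : Type} [Group G] [Fintype G] (m : ℕ) (ε : ℝ) (hε : 0 < ε) (s : ℕ) :
    ∀ O : Finset (List (G × G)), Cl (1 + s * m) O → 1 < (1 + ε) ^ s * en O hd2 →
    ∃ (j : ℕ) (O' : Finset (List (G × G))) (b : List (G × G)), m + 1 ≤ j ∧ Cl j O' ∧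
      (∀ L ∈ O', L ++ b ∈ O) ∧
      ∑ t ∈ O'.image (List.drop (j - m)), ((fib O' (List.drop (j - m)) t).card : ℝ) *
        en (fib O' (List.drop (j - m)) t) hd2 ≤ (1 + ε) * (O'.card * en O' hd2) := by
  induction s with
  | zero =>
    intro O _ h
    have := Eng_le O (hd2 (G := G))
    rw [pow_zero, one_mul] at h
    linarith
  | succ s ih =>
    intro O hO h
    have hk : 1 + (s + 1) * m - m = 1 + s * m := by
      rw [add_mul, one_mul]
      omega
    by_cases hc : ∑ t ∈ O.image (List.drop (1 + s * m)),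
        ((fib O (List.drop (1 + s * m)) t).card : ℝ) *
        en (fib O (List.drop (1 + s * m)) t) hd2 ≤ (1 + ε) * (O.card * en O hd2)
    · refine ⟨1 + (s + 1) * m, O, [], ?_, hO, fun L hL => by rw [List.append_nil]; exact hL, ?_⟩
      · rw [add_mul, one_mul]
        omega
      · rw [hk]
        exact hc
    · have hex : ∃ t ∈ O.image (List.drop (1 + s * m)),
          (1 + ε) * en O hd2 < en (fib O (List.drop (1 + s * m)) t) hd2 := by
        by_contra hcon
        push Not at hcon
        apply hc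
        have hs : ∑ t ∈ O.image (List.drop (1 + s * m)),
            ((fib O (List.drop (1 + s * m)) t).card : ℝ) = O.card := Eng_card O _
        calc _ ≤ ∑ t ∈ O.image (List.drop (1 + s * m)),
              ((fib O (List.drop (1 + s * m)) t).card : ℝ) * ((1 + ε) * en O hd2) :=
              Finset.sum_le_sum fun t ht =>
                mul_le_mul_of_nonneg_left (hcon t ht) (Nat.cast_nonneg _)
          _ = (1 + ε) * (O.card * en O hd2) := by
              rw [← Finset.sum_mul, hs]
              ring
      obtain ⟨t, ht, hlt⟩ := hex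
      obtain ⟨h1, h2⟩ := Eng_cl O (1 + (s + 1) * m) (1 + s * m) (by rw [add_mul, one_mul]; omega)
        hO t ht
      have h3 := Eng_en O (s * m) t
      obtain ⟨j, O', b, hj, hcl, hb, hle⟩ := ih _ h1 (by
        rw [h3]
        calc (1 : ℝ) < (1 + ε) ^ (s + 1) * en O hd2 := h
          _ = (1 + ε) ^ s * ((1 + ε) * en O hd2) := by ring
          _ ≤ _ := mul_le_mul_of_nonneg_left hlt.le (by positivity))
      refine ⟨j, O', b ++ t, hj, hcl, fun L hL => ?_, hle⟩
      rw [← List.append_assoc]
      exact h2 _ (hb L hL)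

theorem thm_Eng : St_Eng := by
  intro G _ _ m s ε hε hG O hO
  have h1 := Eng_ge O (hd2 (G := G)) hO.ne
  refine Eng_ind m ε hε s O hO ?_
  have hpos : 0 < en O (hd2 (G := G)) := by
    by_contra hcon
    have h2 : (Fintype.card G : ℝ) * en O (hd2 (G := G)) ≤ 0 :=
      mul_nonpos_of_nonneg_of_nonpos (Nat.cast_nonneg _) (not_lt.1 hcon)
    linarith
  calc (1 : ℝ) ≤ _ := h1
    _ < _ := mul_lt_mul_of_pos_right hG hpos

end Pool.Agent.PWL
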