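import Pool.Agent.PWL.StA

/-!
# Campaign PWL: growth of the sets of products

Proof of the statement `St_Grw`.
-/

set_option autoImplicit false

open scoped BigOperators

namespace Pool.Agent.PWL

open scoped Classical

/-- The elementary inequality: `log r ≥ (r - 1) / 2` for `1 ≤ r ≤ 2`, in the form used. -/
private theorem Grw_log {a b : ℝ} (ha : 0 < a) (hab : a ≤ b) (hb : b ≤ 2 * a) :
    (b / a - 1) / 2 ≤ Real.log b - Real.log a := by
  have hb0 : 0 < b := lt_of_lt_of_le ha hab
  have h1 : 1 - (b / a)⁻¹ ≤ Real.log (b / a) := Real.one_sub_inv_le_log_of_pos (div_pos hb0 ha)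
  rw [← Real.log_div hb0.ne' ha.ne']
  refine le_trans ?_ h1
  have hr1 : 1 ≤ b / a := (one_le_div ha).2 hab
  have hr2 : b / a ≤ 2 := by rw [div_le_iff₀ ha]; linarith
  have hr0 : 0 < b / a := by linarith
  set r := b / a with hr
  rw [div_le_iff₀ (by norm_num : (0 : ℝ) < 2)]
  have h2 : (1 - r⁻¹) * 2 - (r - 1) = (r - 1) * (2 - r) / r := by
    field_simp
  have h3 : 0 ≤ (r - 1) * (2 - r) / r :=
    div_nonneg (mul_nonneg (by linarith) (by linarith)) hr0.le
  linarith

/-- The weight of a letter for the set `D`. -/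
private noncomputable def Grw_h {G : Type} [Group G] (H : Subgroup G) (D : Finset G) (x : G) : ℝ :=
  if x ∈ H then (1 - ((D ∩ D.image (fun d => d * x)).card : ℝ) / D.card) / 2 else 0

private theorem Grw_h_nonneg {G : Type} [Group G] (H : Subgroup G) (D : Finset G) (hD : 0 < D.card)
    (x : G) : 0 ≤ Grw_h H D x := by
  unfold Grw_h
  split_ifs with hx
  · have hD' : (0 : ℝ) < D.card := by exact_mod_cast hD
    have h1 : ((D ∩ D.image (fun d => d * x)).card : ℝ) ≤ D.card := by
      exact_mod_cast Finset.card_le_card Finset.inter_subset_left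
    have h2 : ((D ∩ D.image (fun d => d * x)).card : ℝ) / D.card ≤ 1 := by
      rw [div_le_one hD']; exact h1
    linarith
  · exact le_refl _

private theorem Grw_h_le {G : Type} [Group G] (H : Subgroup G) (D : Finset G) (x : G) :
    Grw_h H D x ≤ 1 / 2 := by
  unfold Grw_h
  split_ifs with hx
  · have h2 : 0 ≤ ((D ∩ D.image (fun d => d * x)).card : ℝ) / D.card := by positivity
    linarith
  · norm_num

private theorem Grw_h_log {G : Type} [Group G] (H : Subgroup G) (xs : List G) (x : G)
    (hD : 0 < (Ds H xs).card) :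
    Grw_h H (Ds H xs) x ≤ Real.log (Ds H (x :: xs)).card - Real.log (Ds H xs).card := by
  by_cases hx : x ∈ H
  · have hDs : Ds H (x :: xs) = Ds H xs ∪ (Ds H xs).image (fun d => d * x) := by
      simp only [Ds, if_pos hx]
    have hinj : ((Ds H xs).image (fun d => d * x)).card = (Ds H xs).card :=
      Finset.card_image_of_injective _ (mul_left_injective x)
    have hun := Finset.card_union_add_card_inter (Ds H xs) ((Ds H xs).image (fun d => d * x))
    rw [hinj] at hun
    have hunR : ((Ds H xs ∪ (Ds H xs).image (fun d => d * x)).card : ℝ) +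
        ((Ds H xs ∩ (Ds H xs).image (fun d => d * x)).card : ℝ) =
        (Ds H xs).card + (Ds H xs).card := by exact_mod_cast hun
    have hD' : (0 : ℝ) < (Ds H xs).card := by exact_mod_cast hD
    have hle : ((Ds H xs ∩ (Ds H xs).image (fun d => d * x)).card : ℝ) ≤ (Ds H xs).card := by
      exact_mod_cast Finset.card_le_card Finset.inter_subset_left
    have h0 : (0 : ℝ) ≤ ((Ds H xs ∩ (Ds H xs).image (fun d => d * x)).card : ℝ) := by positivity
    rw [hDs]
    refine le_trans (le_of_eq ?_) (Grw_log hD' (by linarith) (by linarith))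
    unfold Grw_h
    rw [if_pos hx]
    have : ((Ds H xs ∪ (Ds H xs).image (fun d => d * x)).card : ℝ) =
        2 * (Ds H xs).card - ((Ds H xs ∩ (Ds H xs).image (fun d => d * x)).card : ℝ) := by linarith
    rw [this]
    field_simp
    ring
  · have hDs : Ds H (x :: xs) = Ds H xs := by
      simp only [Ds, if_neg hx]
    rw [hDs]
    unfold Grw_h
    rw [if_neg hx]
    simp

private theorem Grw_h_sum (hDsb : St_Dsb) {G : Type} [Group G] [Fintype G] (H : Subgroup G)
    (xs : List G) :
    ∑ x, Grw_h H (Ds H xs) x = ((Nat.card H : ℝ) - (Ds H xs).card) / 2 := by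
  obtain ⟨hA, -, hC⟩ := @hDsb G _ _ H
  have hC' := hC (Ds H xs) (hA xs).2
  have hpos : (0 : ℝ) < (Ds H xs).card := by
    exact_mod_cast Finset.card_pos.2 ⟨1, (hA xs).1⟩
  have h1 : ∀ x, Grw_h H (Ds H xs) x = (if x ∈ H then (1 : ℝ) else 0) / 2 -
      (if x ∈ H then (((Ds H xs) ∩ (Ds H xs).image (fun d => d * x)).card : ℝ) else 0) /
        (Ds H xs).card / 2 := by
    intro x
    unfold Grw_h
    split_ifs with hx
    · ring
    · simp
  rw [Finset.sum_congr rfl (fun x _ => h1 x), Finset.sum_sub_distrib, ← Finset.sum_div,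
    ← Finset.sum_div, ← Finset.sum_div, hC']
  have h2 : ∑ x : G, (if x ∈ H then (1 : ℝ) else 0) = (Nat.card H : ℝ) := by
    rw [Finset.sum_boole]
    norm_cast
    rw [Nat.card_eq_fintype_card, Fintype.card_subtype]
  rw [h2]
  field_simp

/-- The sum over a fibre in terms of the numbers of the values. -/
private theorem Grw_cnt {Ω G : Type} [Fintype G] (O : Finset Ω) (W : Ω → G) (φ : G → ℝ) :
    ∑ ω ∈ O, φ (W ω) = ∑ g, (cnt O W g : ℝ) * φ g := by
  rw [← Finset.sum_fiberwise_of_maps_to (s := O) (t := Finset.univ) (g := W)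
    (fun _ _ => Finset.mem_univ _)]
  refine Finset.sum_congr rfl fun g _ => ?_
  unfold cnt
  rw [← nsmul_eq_mul, ← Finset.sum_const]
  refine Finset.sum_congr rfl fun ω hω => ?_
  rw [(Finset.mem_filter.1 hω).2]

private theorem Grw_fib {Ω B : Type} (O : Finset Ω) (τ : Ω → B) (φ : Ω → ℝ) :
    ∑ ω ∈ O, φ ω = ∑ b ∈ O.image τ, ∑ ω ∈ fib O τ b, φ ω := by
  unfold fib
  rw [Finset.sum_fiberwise_of_maps_to (fun ω hω => Finset.mem_image_of_mem τ hω)]

/-- (Grw) Growth of the sets of products. -/
theorem thm_Grw : St_Grw := by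
  intro hDsb Ω B G _ _ O τ W l m H hO hlen hf hu hlog
  obtain ⟨hA, hB, hC⟩ := @hDsb G _ _ H
  have hDpos : ∀ xs : List G, 0 < (Ds H xs).card := fun xs =>
    Finset.card_pos.2 ⟨1, (hA xs).1⟩
  have hOpos : (0 : ℝ) < O.card := by exact_mod_cast Finset.card_pos.2 hO
  have hHpos : (0 : ℝ) < (Nat.card H : ℝ) := by exact_mod_cast Nat.card_pos
  -- the mean of the densities
  set θ : B → ℝ := fun b => ((Ds H (l b)).card : ℝ) / Nat.card H with hθ
  set S : ℝ := ∑ b ∈ O.image τ, ((fib O τ b).card : ℝ) * (1 - θ b) with hS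
  -- one step
  have hstep : ∀ i, i < m →
      S / 2 - (1 / 8) * O.card ≤
        ∑ ω ∈ O, Real.log (Ds H ((l (τ ω)).drop i)).card -
          ∑ ω ∈ O, Real.log (Ds H ((l (τ ω)).drop (i + 1))).card := by
    intro i hi
    obtain ⟨f, hfO, hfinj, hfT⟩ := hf i hi
    set F : Ω → ℝ := fun ω =>
      Real.log (Ds H (W ω :: (l (τ ω)).drop (i + 1))).card -
        Real.log (Ds H ((l (τ ω)).drop (i + 1))).card with hF
    have himg : O.image f = O := by
      apply Finset.eq_of_subset_of_card_le
      · intro y hy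
        obtain ⟨x, hx, rfl⟩ := Finset.mem_image.1 hy
        exact hfO x hx
      · rw [Finset.card_image_of_injOn hfinj]
    have hperm : ∑ ω ∈ O, F (f ω) = ∑ ω ∈ O, F ω := by
      conv_rhs => rw [← himg]
      rw [Finset.sum_image hfinj]
    have hFf : ∀ ω ∈ O, F (f ω) = Real.log (Ds H ((l (τ ω)).drop i)).card -
        Real.log (Ds H ((l (τ ω)).drop (i + 1))).card := by
      intro ω hω
      obtain ⟨h1, h2⟩ := hfT ω hω
      have hlt : i < (l (τ ω)).length := by rw [hlen ω hω]; exact hi
      have h3 : (l (τ ω))[i] = W (f ω) := by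
        rw [List.getElem?_eq_getElem hlt] at h1
        exact Option.some.inj h1
      simp only [hF]
      rw [h2, List.drop_eq_getElem_cons hlt, h3]
    rw [← Finset.sum_sub_distrib, ← Finset.sum_congr rfl hFf, hperm]
    -- lower bound
    have hlow : ∑ ω ∈ O, Grw_h H (Ds H ((l (τ ω)).drop (i + 1))) (W ω) ≤ ∑ ω ∈ O, F ω :=
      Finset.sum_le_sum fun ω _ => Grw_h_log H _ (W ω) (hDpos _)
    refine le_trans ?_ hlow
    rw [Grw_fib O τ]
    have hb : ∀ b ∈ O.image τ,
        ((fib O τ b).card : ℝ) * (1 - θ b) / 2 - 1 / 2 * ∑ g, (if g ∈ H then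
          |(cnt (fib O τ b) W g : ℝ) - (fib O τ b).card / Nat.card H| else 0) ≤
        ∑ ω ∈ fib O τ b, Grw_h H (Ds H ((l (τ ω)).drop (i + 1))) (W ω) := by
      intro b _
      have h1 : ∑ ω ∈ fib O τ b, Grw_h H (Ds H ((l (τ ω)).drop (i + 1))) (W ω) =
          ∑ ω ∈ fib O τ b, Grw_h H (Ds H ((l b).drop (i + 1))) (W ω) := by
        refine Finset.sum_congr rfl fun ω hω => ?_
        unfold fib at hω
        rw [(Finset.mem_filter.1 hω).2]
      rw [h1, Grw_cnt (fib O τ b) W (Grw_h H (Ds H ((l b).drop (i + 1))))]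
      have h2 : ∀ g : G, ((fib O τ b).card : ℝ) / Nat.card H *
          Grw_h H (Ds H ((l b).drop (i + 1))) g - 1 / 2 * (if g ∈ H then
          |(cnt (fib O τ b) W g : ℝ) - (fib O τ b).card / Nat.card H| else 0) ≤
          (cnt (fib O τ b) W g : ℝ) * Grw_h H (Ds H ((l b).drop (i + 1))) g := by
        intro g
        by_cases hg : g ∈ H
        · rw [if_pos hg]
          have hn := Grw_h_nonneg H (Ds H ((l b).drop (i + 1))) (hDpos _) g
          have hl := Grw_h_le H (Ds H ((l b).drop (i + 1))) g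
          have ha := neg_abs_le ((cnt (fib O τ b) W g : ℝ) - (fib O τ b).card / Nat.card H)
          have hb' := abs_nonneg ((cnt (fib O τ b) W g : ℝ) - (fib O τ b).card / Nat.card H)
          nlinarith [mul_le_mul_of_nonneg_right hl hb', mul_le_mul_of_nonneg_right ha hn]
        · rw [if_neg hg]
          unfold Grw_h
          rw [if_neg hg]
          simp
      have h3 := Finset.sum_le_sum (fun g (_ : g ∈ (Finset.univ : Finset G)) => h2 g)
      rw [Finset.sum_sub_distrib, ← Finset.mul_sum, ← Finset.mul_sum,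
        Grw_h_sum hDsb H ((l b).drop (i + 1))] at h3
      refine le_trans ?_ h3
      have h4 : ((Ds H ((l b).drop (i + 1))).card : ℝ) ≤ (Ds H (l b)).card := by
        exact_mod_cast Finset.card_le_card (hB (l b) (i + 1))
      have h5 : ((fib O τ b).card : ℝ) * (1 - θ b) / 2 ≤
          ((fib O τ b).card : ℝ) / Nat.card H *
            (((Nat.card H : ℝ) - (Ds H ((l b).drop (i + 1))).card) / 2) := by
        have h6 : ((fib O τ b).card : ℝ) * (1 - θ b) / 2 =
            ((fib O τ b).card : ℝ) / Nat.card H *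
            (((Nat.card H : ℝ) - (Ds H (l b)).card) / 2) := by
          simp only [hθ]
          field_simp
        rw [h6]
        apply mul_le_mul_of_nonneg_left _ (by positivity)
        linarith
      linarith
    have h7 := Finset.sum_le_sum hb
    rw [Finset.sum_sub_distrib, ← Finset.sum_div, ← Finset.mul_sum] at h7
    refine le_trans ?_ h7
    have : (1 : ℝ) / 2 * ∑ b ∈ O.image τ, ∑ g, (if g ∈ H then
        |(cnt (fib O τ b) W g : ℝ) - (fib O τ b).card / Nat.card H| else 0) ≤
        1 / 2 * (1 / 4 * O.card) := mul_le_mul_of_nonneg_left hu (by norm_num)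
    linarith
  -- telescoping
  have htel : (m : ℝ) * (S / 2 - (1 / 8) * O.card) ≤ O.card * Real.log (Fintype.card G) := by
    have h1 := Finset.sum_le_sum (fun i (hi : i ∈ Finset.range m) =>
      hstep i (Finset.mem_range.1 hi))
    rw [Finset.sum_const, Finset.card_range, nsmul_eq_mul,
      Finset.sum_range_sub' (fun i => ∑ ω ∈ O, Real.log (Ds H ((l (τ ω)).drop i)).card)] at h1
    have h2 : ∑ ω ∈ O, Real.log (Ds H ((l (τ ω)).drop m)).card = 0 := by
      refine Finset.sum_eq_zero fun ω hω => ?_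
      rw [List.drop_eq_nil_of_le (hlen ω hω).le]
      simp [Ds]
    have h3 : ∑ ω ∈ O, Real.log (Ds H ((l (τ ω)).drop 0)).card ≤
        O.card * Real.log (Fintype.card G) := by
      rw [← nsmul_eq_mul, ← Finset.sum_const]
      refine Finset.sum_le_sum fun ω _ => ?_
      apply Real.log_le_log
      · exact_mod_cast hDpos _
      · exact_mod_cast Finset.card_le_univ _
    rw [h2, sub_zero] at h1
    exact le_trans h1 h3
  have hcardG : 0 ≤ Real.log (Fintype.card G) := Real.log_natCast_nonneg _
  have hmpos : (0 : ℝ) < m := by linarith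
  have hS34 : S < 3 / 4 * O.card := by
    by_contra hcon
    push Not at hcon
    have h1 : (m : ℝ) * ((1 / 4) * O.card) ≤ (m : ℝ) * (S / 2 - (1 / 8) * O.card) :=
      mul_le_mul_of_nonneg_left (by linarith) hmpos.le
    have h2 : (O.card : ℝ) * (4 * Real.log (Fintype.card G)) < O.card * m :=
      mul_lt_mul_of_pos_left hlog hOpos
    nlinarith
  -- the inverse of the letter
  by_contra hno
  push Not at hno
  have hsum : ∑ b ∈ O.image τ, ((fib O τ b).card : ℝ) = O.card := by
    have := Grw_fib O τ (fun _ => (1 : ℝ))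
    simp only [Finset.sum_const, nsmul_eq_mul, mul_one] at this
    exact this.symm
  have hθle : ∑ b ∈ O.image τ, ((fib O τ b).card : ℝ) * θ b ≤ 1 / 4 * O.card := by
    refine le_trans (Finset.sum_le_sum fun b _ => ?_) hu
    have h1 : ((fib O τ b).card : ℝ) * θ b =
        ∑ d ∈ Ds H (l b), ((fib O τ b).card : ℝ) / Nat.card H := by
      rw [Finset.sum_const, nsmul_eq_mul]
      simp only [hθ]
      ring
    have h2 : ∑ d ∈ Ds H (l b), ((fib O τ b).card : ℝ) / Nat.card H =
        ∑ d ∈ Ds H (l b), (if d⁻¹ ∈ H then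
          |(cnt (fib O τ b) W d⁻¹ : ℝ) - (fib O τ b).card / Nat.card H| else 0) := by
      refine Finset.sum_congr rfl fun d hd => ?_
      have hdH : d⁻¹ ∈ H := H.inv_mem ((hA (l b)).2 d hd)
      have hc0 : cnt (fib O τ b) W d⁻¹ = 0 := by
        unfold cnt fib
        rw [Finset.card_eq_zero, Finset.filter_eq_empty_iff]
        intro ω hω hW
        obtain ⟨hωO, hτ⟩ := Finset.mem_filter.1 hω
        apply hno ω hωO
        rw [hW, inv_inv, hτ]
        exact hd
      rw [if_pos hdH, hc0, Nat.cast_zero, zero_sub, abs_neg, abs_of_nonneg (by positivity)]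
    rw [h1, h2]
    have h3 : ∑ d ∈ Ds H (l b), (if d⁻¹ ∈ H then
          |(cnt (fib O τ b) W d⁻¹ : ℝ) - (fib O τ b).card / Nat.card H| else 0) =
        ∑ g ∈ (Ds H (l b)).image (fun d => d⁻¹), (if g ∈ H then
          |(cnt (fib O τ b) W g : ℝ) - (fib O τ b).card / Nat.card H| else 0) := by
      rw [Finset.sum_image (fun x _ y _ hxy => inv_injective hxy)]
    rw [h3]
    apply Finset.sum_le_sum_of_subset_of_nonneg (Finset.subset_univ _)
    intro g _ _
    split_ifs
    · exact abs_nonneg _
    · exact le_refl _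
  have hSeq : S = O.card - ∑ b ∈ O.image τ, ((fib O τ b).card : ℝ) * θ b := by
    rw [hS, ← hsum, ← Finset.sum_sub_distrib]
    refine Finset.sum_congr rfl fun b _ => ?_
    ring
  linarith

end Pool.Agent.PWL
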