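import Pool.Agent.PWL.St

/-!
# Campaign PWL, module Hlf (helper32): a simple closed curve in the kernel
-/

set_option autoImplicit false

open scoped BigOperators

namespace Pool.Agent.PWL

open Pool.Agent.PW Pool.Agent.PWM Pool.Agent.PWB Pool.Agent.PWX Pool.Agent.PWF
open scoped Classical

/-- an injective map of a finite set into itself does not change the distribution -/
private theorem Hlf_perm {Ω G : Type} (O : Finset Ω) (f : Ω → Ω) (hf : ∀ ω ∈ O, f ω ∈ O)
    (hi : Set.InjOn f (O : Set Ω)) (W : Ω → G) (g : G) :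
    cnt O (fun ω => W (f ω)) g = cnt O W g := by
  have himg : O.image f = O := by
    apply Finset.eq_of_subset_of_card_le
    · intro x hx
      obtain ⟨y, hy, rfl⟩ := Finset.mem_image.1 hx
      exact hf y hy
    · rw [Finset.card_image_of_injOn hi]
  have h1 : (O.image f).filter (fun ω => W ω = g) = (O.filter fun ω => W (f ω) = g).image f := by
    ext x
    simp only [Finset.mem_filter, Finset.mem_image]
    constructor
    · rintro ⟨⟨y, hy, rfl⟩, hx⟩
      exact ⟨y, ⟨hy, hx⟩, rfl⟩
    · rintro ⟨y, ⟨hy, hx⟩, rfl⟩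
      exact ⟨⟨y, hy, rfl⟩, hx⟩
  rw [himg] at h1
  unfold cnt
  rw [h1, Finset.card_image_of_injOn]
  intro x hx y hy hxy
  exact hi (Finset.mem_filter.1 hx).1 (Finset.mem_filter.1 hy).1 hxy

private theorem Hlf_cnt {Ω G : Type} (O : Finset Ω) (W W' : Ω → G)
    (h : ∀ ω ∈ O, W ω = W' ω) (g : G) : cnt O W g = cnt O W' g := by
  unfold cnt
  congr 1
  apply Finset.filter_congr
  intro ω hω
  rw [h ω hω]

private theorem Hlf_head {α : Type} (L : List α) (a : ℕ) (d : α) :
    (L.drop a).headD d = (L[a]?).getD d := by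
  rw [List.headD_eq_head?_getD, List.head?_drop]

private theorem Hlf_hd2 {G : Type} [Group G] (L : List (G × G)) :
    hd2 L = ((L[0]?).getD (1, 1)).2 := by
  cases L <;> rfl

theorem thm_Hlf : St_Hlf := by
  intro hStr hUni hDsb hGrw hEng hFrt hCub G _ _ L hL
  haveI : Fintype G := Fintype.ofFinite G
  obtain ⟨bRefl, bTrans, -, bApp, -, -, -⟩ := PWH.bBas
  obtain ⟨n, hn⟩ : ∃ n, n = Nat.log 2 (Nat.card G) + 1 := ⟨_, rfl⟩
  rw [← hn] at hL
  have hn1 : 1 ≤ n := by omega
  have hcard : Nat.card G < 2 ^ n := by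
    rw [hn]; exact Nat.lt_pow_succ_log_self one_lt_two _
  have hcardF : Fintype.card G < 2 ^ n := by rwa [← Nat.card_eq_fintype_card]
  obtain ⟨m, hm⟩ : ∃ m, m = 4 * n := ⟨_, rfl⟩
  obtain ⟨s, hs⟩ : ∃ s, s = 400000000 * n := ⟨_, rfl⟩
  rw [← hm, ← hs] at hL
  -- the growth
  have hgrow : (Fintype.card G : ℝ) < (1 + 1 / 400000000) ^ s := by
    have h1 : (2 : ℝ) ≤ (1 + 1 / 400000000 : ℝ) ^ 400000000 := by
      have := one_add_mul_le_pow (a := (1 / 400000000 : ℝ)) (by norm_num) 400000000
      refine le_trans ?_ this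
      norm_num
    have h2 : (2 : ℝ) ^ n ≤ (1 + 1 / 400000000 : ℝ) ^ s := by
      rw [hs, pow_mul]
      exact pow_le_pow_left₀ (by norm_num) h1 n
    refine lt_of_lt_of_le ?_ h2
    exact_mod_cast hcardF
  -- the orbit
  have hfin : {L' : List (G × G) | LG (L.take (1 + s * m)) L'}.Finite := by
    refine (List.finite_length_eq (G × G) (L.take (1 + s * m)).length).subset ?_
    intro L' hL'
    exact hL'.1.symm
  have hlen : (L.take (1 + s * m)).length = 1 + s * m := by
    rw [List.length_take]; omega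
  obtain ⟨O, hO⟩ : ∃ O : Finset (List (G × G)), ∀ L', L' ∈ O ↔ LG (L.take (1 + s * m)) L' :=
    ⟨hfin.toFinset, fun L' => by rw [Set.Finite.mem_toFinset]; rfl⟩
  have hCl : Cl (1 + s * m) O :=
    { ne := ⟨_, (hO _).2 (bRefl _)⟩
      len := fun L' hL' => by rw [← hlen]; exact ((hO _).1 hL').1.symm
      mv := fun L' hL' L'' h => (hO _).2 (bTrans _ _ _ ((hO _).1 hL') h) }
  obtain ⟨j, O', b, hmj, hCl', hOb, hen⟩ := hEng m s (1 / 400000000) (by norm_num) hgrow O hCl
  obtain ⟨-, -, -, f4, f5⟩ := (id hFrt : St_Frt)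
  have hm1 : 1 ≤ m := by omega
  -- the tail
  obtain ⟨H, hH⟩ := hUni hStr O' (List.drop (j - m)) hd2 (fun b => (b.headD (1, 1)).2) hCl'.ne
    (by
      intro g
      obtain ⟨f, hf1, hf2, hf3⟩ := f4 j O' hCl' (j - m) (by omega)
      rw [← Hlf_perm O' f hf1 hf2 hd2 g]
      apply Hlf_cnt
      intro ω hω
      show ((ω.drop (j - m)).headD (1, 1)).2 = hd2 (f ω)
      rw [Hlf_head, Hlf_hd2, (hf3 ω hω).1])
    (by
      intro g
      obtain ⟨f, hf1, hf2, hf3⟩ := f5 j O' hCl' (j - m - 1) (by omega)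
      rw [← Hlf_perm O' f hf1 hf2 hd2 g]
      apply Hlf_cnt
      intro ω hω
      show ((ω.drop (j - m)).headD (1, 1)).2 * hd2 ω = hd2 (f ω)
      have e : j - m - 1 + 1 = j - m := by omega
      rw [Hlf_head, hf3 ω hω, e])
    (by
      have e : ∀ (i1 i2 : DecidableEq (List (G × G))),
          @Finset.image _ _ i1 (List.drop (j - m)) O' =
            @Finset.image _ _ i2 (List.drop (j - m)) O' := fun i1 i2 => by
        rw [Subsingleton.elim i1 i2]
      rw [e _ inferInstance]
      exact hen)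
  obtain ⟨ω, hω, hωd⟩ := hGrw hDsb O' (List.drop (j - m)) hd2 (fun b => b.map Prod.snd) m H
    hCl'.ne
    (by
      intro ω hω
      show ((ω.drop (j - m)).map Prod.snd).length = m
      rw [List.length_map, List.length_drop, hCl'.len ω hω]
      omega)
    (by
      intro i hi
      obtain ⟨f, hf1, hf2, hf3⟩ := f4 j O' hCl' (j - m + i) (by omega)
      refine ⟨f, hf1, hf2, fun ω hω => ?_⟩
      obtain ⟨h1, h2⟩ := hf3 ω hω
      constructor
      · show ((ω.drop (j - m)).map Prod.snd)[i]? = some (hd2 (f ω))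
        rw [List.getElem?_map, List.getElem?_drop, h1, Hlf_hd2]
        have hl := hCl'.len _ (hf1 ω hω)
        have h0 : 0 < (f ω).length := by omega
        rw [List.getElem?_eq_getElem h0]
        rfl
      · show (((f ω).drop (j - m)).map Prod.snd).drop (i + 1) =
          ((ω.drop (j - m)).map Prod.snd).drop (i + 1)
        rw [← List.map_drop, ← List.map_drop, List.drop_drop, List.drop_drop]
        have e : j - m + (i + 1) = j - m + i + 1 := by omega
        rw [e, h2])
    hH
    (by
      have h0 : 0 < Fintype.card G := Fintype.card_pos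
      have h1 : Real.log (Fintype.card G) < n := by
        have h2 : Real.log (Fintype.card G) < Real.log (2 ^ n) :=
          Real.log_lt_log (by exact_mod_cast h0) (by exact_mod_cast hcardF)
        rw [Real.log_pow] at h2
        have h3 : Real.log 2 < 1 := by
          have := Real.log_two_lt_d9
          linarith
        have h4 : (0 : ℝ) < n := by exact_mod_cast hn1
        nlinarith
      rw [hm]
      push_cast
      linarith)
  -- the first handle
  have hlω := hCl'.len ω hω
  obtain ⟨p, rest, rfl⟩ : ∃ p rest, ω = p :: rest := by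
    cases ω with
    | nil => simp at hlω; omega
    | cons p rest => exact ⟨p, rest, rfl⟩
  obtain ⟨a, ha⟩ : ∃ a, j - m = a + 1 := ⟨j - m - 1, by omega⟩
  rw [ha] at hωd
  have hωd' : p.2⁻¹ ∈ Ds H ((rest.drop a).map Prod.snd) := hωd
  obtain ⟨p', P', hLG, hp'⟩ := hCub hFrt H (rest.drop a) (rest.take a) p _ hωd'
  rw [List.take_append_drop] at hLG
  have hmem := hOb _ (hCl'.mv _ hω _ hLG)
  have hLG2 := (hO _).1 hmem
  have hLG3 := bApp [] _ _ (L.drop (1 + s * m)) hLG2
  rw [List.nil_append, List.nil_append, List.take_append_drop] at hLG3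
  exact ⟨p', P' ++ b ++ L.drop (1 + s * m), by simpa using hLG3, by rw [hp']; simp⟩

end Pool.Agent.PWL
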