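import Pool.Agent.PWL.StA

/-!
# PWL, Str: a nearly idempotent probability is nearly uniform on a subgroup (helper13)
-/

set_option autoImplicit false

open scoped BigOperators

namespace Pool.Agent.PWL

open scoped Classical

private theorem Str_mul {G : Type} [Group G] [Fintype G] (x : G) (F : G → ℝ) :
    ∑ g, F (x * g) = ∑ g, F g :=
  Fintype.sum_equiv (Equiv.mulLeft x) _ _ (fun _ => rfl)

private noncomputable def Str_c {G : Type} [Group G] [Fintype G] (ν : G → ℝ) (x : G) : ℝ :=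
  ∑ g, ν (x⁻¹ * g) * ν g

private theorem Str_dist {G : Type} [Group G] [Fintype G] (ν : G → ℝ) (x : G) :
    ∑ g, (ν (x⁻¹ * g) - ν g) ^ 2 = 2 * ∑ g, ν g ^ 2 - 2 * Str_c ν x := by
  have h1 : ∑ g, ν (x⁻¹ * g) ^ 2 = ∑ g, ν g ^ 2 := Str_mul x⁻¹ fun g => ν g ^ 2
  have h2 : ∀ g, (ν (x⁻¹ * g) - ν g) ^ 2 =
      ν (x⁻¹ * g) ^ 2 + ν g ^ 2 - 2 * (ν (x⁻¹ * g) * ν g) := fun g => by ring
  simp only [h2]
  rw [Finset.sum_sub_distrib, Finset.sum_add_distrib, h1, ← Finset.mul_sum]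
  unfold Str_c
  ring

private theorem Str_inv {G : Type} [Group G] [Fintype G] (ν : G → ℝ) (x : G) :
    Str_c ν x⁻¹ = Str_c ν x := by
  unfold Str_c
  rw [← Str_mul x⁻¹ fun g => ν (x⁻¹⁻¹ * g) * ν g]
  refine Finset.sum_congr rfl fun g _ => ?_
  rw [inv_inv, mul_inv_cancel_left, mul_comm]

private theorem Str_one {G : Type} [Group G] [Fintype G] (ν : G → ℝ) :
    Str_c ν 1 = ∑ g, ν g ^ 2 := by
  unfold Str_c
  refine Finset.sum_congr rfl fun g _ => ?_
  rw [inv_one, one_mul, sq]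

private theorem Str_sum {G : Type} [Group G] [Fintype G] (ν : G → ℝ) (h1 : ∑ g, ν g = 1) :
    ∑ x, Str_c ν x = 1 := by
  unfold Str_c
  rw [Finset.sum_comm]
  have h2 : ∀ g, ∑ x, ν (x⁻¹ * g) * ν g = ν g := by
    intro g
    rw [← Finset.sum_mul]
    have h3 : ∑ x, ν (x⁻¹ * g) = ∑ x, ν x :=
      Fintype.sum_equiv ((Equiv.inv G).trans (Equiv.mulRight g)) _ _ (fun _ => rfl)
    rw [h3, h1, one_mul]
  simp only [h2]
  exact h1

/-- the triangle inequality -/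
private theorem Str_tri {G : Type} [Group G] [Fintype G] (ν : G → ℝ) (x y : G) :
    Str_c ν (x * y) ≥ 2 * Str_c ν x + 2 * Str_c ν y - 3 * ∑ g, ν g ^ 2 := by
  have hx := Str_dist ν x
  have hy := Str_dist ν y
  have hxy := Str_dist ν (x * y)
  have h1 : ∑ g, (ν (y⁻¹ * (x⁻¹ * g)) - ν (x⁻¹ * g)) ^ 2 = ∑ g, (ν (y⁻¹ * g) - ν g) ^ 2 :=
    Str_mul x⁻¹ fun g => (ν (y⁻¹ * g) - ν g) ^ 2
  have h2 : ∑ g, (ν ((x * y)⁻¹ * g) - ν g) ^ 2 ≤
      2 * ∑ g, (ν (y⁻¹ * (x⁻¹ * g)) - ν (x⁻¹ * g)) ^ 2 + 2 * ∑ g, (ν (x⁻¹ * g) - ν g) ^ 2 := by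
    rw [Finset.mul_sum, Finset.mul_sum, ← Finset.sum_add_distrib]
    refine Finset.sum_le_sum fun g _ => ?_
    rw [mul_inv_rev, mul_assoc]
    nlinarith [sq_nonneg ((ν (y⁻¹ * (x⁻¹ * g)) - ν (x⁻¹ * g)) - (ν (x⁻¹ * g) - ν g))]
  rw [h1, hxy, hx, hy] at h2
  linarith

/-- the convolution -/
private theorem Str_conv {G : Type} [Group G] [Fintype G] (ν : G → ℝ) :
    ∑ x, ν x * Str_c ν x = ∑ g, (∑ h, ν h * ν (h⁻¹ * g)) * ν g := by
  unfold Str_c
  simp only [Finset.mul_sum, Finset.sum_mul]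
  rw [Finset.sum_comm]
  exact Finset.sum_congr rfl fun g _ => Finset.sum_congr rfl fun x _ => by ring

/-- a small product set of a symmetric set is a subgroup -/
private theorem Str_grp {G : Type} [Group G] (S P : Finset G) (hS1 : (1 : G) ∈ S)
    (hSi : ∀ x ∈ S, x⁻¹ ∈ S) (hP : ∀ z, z ∈ P ↔ ∃ x ∈ S, ∃ y ∈ S, x * y = z)
    (hcard : 2 * P.card < 3 * S.card) : ∃ H : Subgroup G, ∀ x, x ∈ H ↔ x ∈ P := by
  have hPi : ∀ z ∈ P, z⁻¹ ∈ P := by
    intro z hz
    obtain ⟨x, hx, y, hy, rfl⟩ := (hP z).1 hz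
    exact (hP _).2 ⟨y⁻¹, hSi y hy, x⁻¹, hSi x hx, (mul_inv_rev x y).symm⟩
  have hA : ∀ u ∈ P, S.card < 2 * (S ∩ S.image fun s => s * u).card := by
    intro u hu
    obtain ⟨p, hp, q, hq, rfl⟩ := (hP u).1 hu
    have hc : ∀ w : G, (S.image fun s => s * w).card = S.card := fun w =>
      Finset.card_image_of_injective _ (mul_left_injective w)
    have h1 : ((S ∩ S.image fun s => s * (p * q)).image fun s => s * q⁻¹) =
        (S.image fun s => s * q⁻¹) ∩ (S.image fun s => s * p) := by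
      rw [Finset.image_inter _ _ (mul_left_injective q⁻¹), Finset.image_image]
      congr 2
      funext s
      simp only [Function.comp_apply]
      group
    have h2 : (S ∩ S.image fun s => s * (p * q)).card =
        ((S.image fun s => s * q⁻¹) ∩ (S.image fun s => s * p)).card := by
      rw [← h1]
      exact (Finset.card_image_of_injective _ (mul_left_injective q⁻¹)).symm
    have h3 : (S.image fun s => s * q⁻¹) ∪ (S.image fun s => s * p) ⊆ P := by
      intro z hz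
      rcases Finset.mem_union.1 hz with hz | hz
      · obtain ⟨s, hs, rfl⟩ := Finset.mem_image.1 hz
        exact (hP _).2 ⟨s, hs, q⁻¹, hSi q hq, rfl⟩
      · obtain ⟨s, hs, rfl⟩ := Finset.mem_image.1 hz
        exact (hP _).2 ⟨s, hs, p, hp, rfl⟩
    have h4 := Finset.card_le_card h3
    have h5 := Finset.card_union_add_card_inter (S.image fun s => s * q⁻¹)
      (S.image fun s => s * p)
    rw [hc, hc] at h5
    rw [h2]
    omega
  refine ⟨{ carrier := {x | x ∈ P}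
            mul_mem' := ?_
            one_mem' := (hP 1).2 ⟨1, hS1, 1, hS1, one_mul 1⟩
            inv_mem' := fun {x} hx => hPi x hx }, fun x => Iff.rfl⟩
  intro y z hy hz
  have h1 := hA y hy
  have h2 := hA z⁻¹ (hPi z hz)
  have h3 : ((S ∩ S.image fun s => s * y) ∩ (S ∩ S.image fun s => s * z⁻¹)).Nonempty := by
    by_contra hne
    rw [Finset.not_nonempty_iff_eq_empty] at hne
    have h4 := Finset.card_union_add_card_inter (S ∩ S.image fun s => s * y)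
      (S ∩ S.image fun s => s * z⁻¹)
    rw [hne, Finset.card_empty] at h4
    have h5 : (S ∩ S.image fun s => s * y) ∪ (S ∩ S.image fun s => s * z⁻¹) ⊆ S :=
      Finset.union_subset Finset.inter_subset_left Finset.inter_subset_left
    have h6 := Finset.card_le_card h5
    omega
  obtain ⟨s, hs⟩ := h3
  obtain ⟨hs1, hs2⟩ := Finset.mem_inter.1 hs
  obtain ⟨s₁, hs₁, hs₁y⟩ := Finset.mem_image.1 (Finset.mem_inter.1 hs1).2
  obtain ⟨s₂, hs₂, hs₂z⟩ := Finset.mem_image.1 (Finset.mem_inter.1 hs2).2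
  refine (hP _).2 ⟨s₁⁻¹, hSi _ hs₁, s₂, hs₂, ?_⟩
  have h7 : s₁ * y = s₂ * z⁻¹ := hs₁y.trans hs₂z.symm
  rw [inv_mul_eq_iff_eq_mul, ← mul_assoc, h7, inv_mul_cancel_right]

theorem thm_Str : St_Str := by
  intro G _ _ ν h0 h1 hE
  have hE0 : 0 < ∑ g, ν g ^ 2 := by
    rcases (Finset.sum_nonneg fun g (_ : g ∈ (Finset.univ : Finset G)) =>
      sq_nonneg (ν g)).lt_or_eq with h | h
    · exact h
    · exfalso
      have h2 := (Finset.sum_eq_zero_iff_of_nonneg fun g _ => sq_nonneg (ν g)).1 h.symm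
      have h3 : ∑ g, ν g = 0 := Finset.sum_eq_zero fun g hg => by
        have := h2 g hg
        exact pow_eq_zero_iff two_ne_zero |>.1 this
      rw [h1] at h3
      exact one_ne_zero h3
  set E : ℝ := ∑ g, ν g ^ 2 with hEdef
  have hc0 : ∀ x, 0 ≤ Str_c ν x := fun x =>
    Finset.sum_nonneg fun g _ => mul_nonneg (h0 _) (h0 _)
  have hcE : ∀ x, Str_c ν x ≤ E := by
    intro x
    have h2 := Str_dist ν x
    have h3 : 0 ≤ ∑ g, (ν (x⁻¹ * g) - ν g) ^ 2 := Finset.sum_nonneg fun g _ => sq_nonneg _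
    rw [h2] at h3
    linarith
  -- the mean of `c`
  have hmean : ∑ x, ν x * (E - Str_c ν x) ≤ E / 20000 := by
    have h2 : ∑ x, ν x * (E - Str_c ν x) = E - ∑ x, ν x * Str_c ν x := by
      simp only [mul_sub]
      rw [Finset.sum_sub_distrib, ← Finset.sum_mul, h1, one_mul]
    have h3 : E - ∑ g, (∑ h, ν h * ν (h⁻¹ * g)) * ν g =
        ∑ g, (ν g - ∑ h, ν h * ν (h⁻¹ * g)) * ν g := by
      rw [hEdef, ← Finset.sum_sub_distrib]
      exact Finset.sum_congr rfl fun g _ => by ring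
    rw [h2, Str_conv, h3]
    have h4 := Finset.sum_mul_sq_le_sq_mul_sq Finset.univ
      (fun g => ν g - ∑ h, ν h * ν (h⁻¹ * g)) ν
    have h5 : (∑ g, (ν g - ∑ h, ν h * ν (h⁻¹ * g)) * ν g) ^ 2 ≤ (E / 20000) ^ 2 := by
      refine h4.trans ?_
      calc (∑ g, (ν g - ∑ h, ν h * ν (h⁻¹ * g)) ^ 2) * ∑ g, ν g ^ 2
          ≤ (1 / 400000000 * E) * E := mul_le_mul_of_nonneg_right hE hE0.le
        _ = (E / 20000) ^ 2 := by ring
    exact (abs_le_of_sq_le_sq' h5 (by positivity)).2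
  -- the good elements
  let S : Finset G := Finset.univ.filter fun x => (1 - 1 / 200) * E ≤ Str_c ν x
  have hS : ∀ x, x ∈ S ↔ (1 - 1 / 200) * E ≤ Str_c ν x := fun x => by
    simp only [S, Finset.mem_filter, Finset.mem_univ, true_and]
  have hS1 : (1 : G) ∈ S := (hS 1).2 (by rw [Str_one]; change (1 - 1 / 200) * E ≤ E; linarith)
  have hSi : ∀ x ∈ S, x⁻¹ ∈ S := fun x hx => (hS _).2 (by rw [Str_inv]; exact (hS x).1 hx)
  have hmass : 99 / 100 ≤ ∑ x ∈ S, ν x := by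
    have h2 : ∑ x ∈ Finset.univ.filter (fun x => ¬ ((1 - 1 / 200) * E ≤ Str_c ν x)),
        ν x * (E / 200) ≤ E / 20000 := by
      refine le_trans ?_ hmean
      refine le_trans (Finset.sum_le_sum fun x hx => ?_) (Finset.sum_le_sum_of_subset_of_nonneg
        (Finset.filter_subset _ _) fun x _ _ => mul_nonneg (h0 x) (by linarith [hcE x]))
      have h3 := (Finset.mem_filter.1 hx).2
      exact mul_le_mul_of_nonneg_left (by linarith) (h0 x)
    rw [← Finset.sum_mul] at h2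
    have h3 : ∑ x ∈ S, ν x + ∑ x ∈ Finset.univ.filter
        (fun x => ¬ ((1 - 1 / 200) * E ≤ Str_c ν x)), ν x = 1 :=
      (Finset.sum_filter_add_sum_filter_not Finset.univ
        (fun x => (1 - 1 / 200) * E ≤ Str_c ν x) ν).trans h1
    have h4 : ∑ x ∈ Finset.univ.filter (fun x => ¬ ((1 - 1 / 200) * E ≤ Str_c ν x)),
        ν x ≤ 1 / 100 := by
      by_contra h5
      rw [not_le] at h5
      have h6 := mul_lt_mul_of_pos_right h5 (show 0 < E / 200 by positivity)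
      linarith
    linarith
  let P : Finset G := (S ×ˢ S).image fun p => p.1 * p.2
  have hP : ∀ z, z ∈ P ↔ ∃ x ∈ S, ∃ y ∈ S, x * y = z := by
    intro z
    simp only [P, Finset.mem_image, Finset.mem_product, Prod.exists]
    constructor
    · rintro ⟨a, b, ⟨ha, hb⟩, h⟩
      exact ⟨a, ha, b, hb, h⟩
    · rintro ⟨a, ha, b, hb, h⟩
      exact ⟨a, b, ⟨ha, hb⟩, h⟩
  have hPc : (P.card : ℝ) * (98 / 100 * E) ≤ 1 := by
    have h2 : ∑ x ∈ P, (98 / 100 * E) ≤ ∑ x ∈ P, Str_c ν x := by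
      refine Finset.sum_le_sum fun z hz => ?_
      obtain ⟨x, hx, y, hy, rfl⟩ := (hP z).1 hz
      have h3 := Str_tri ν x y
      have h4 := (hS x).1 hx
      have h5 := (hS y).1 hy
      change Str_c ν (x * y) ≥ 2 * Str_c ν x + 2 * Str_c ν y - 3 * E at h3
      linarith
    rw [Finset.sum_const, nsmul_eq_mul] at h2
    refine h2.trans ?_
    rw [← Str_sum ν h1]
    exact Finset.sum_le_sum_of_subset_of_nonneg (Finset.subset_univ _) fun x _ _ => hc0 x
  have hSc : (99 / 100 : ℝ) ^ 2 ≤ (S.card : ℝ) * E := by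
    have h2 : (∑ x ∈ S, ν x) ^ 2 ≤ (S.card : ℝ) * ∑ x ∈ S, ν x ^ 2 := sq_sum_le_card_mul_sum_sq
    have h3 : ∑ x ∈ S, ν x ^ 2 ≤ E :=
      Finset.sum_le_sum_of_subset_of_nonneg (Finset.subset_univ _) fun x _ _ => sq_nonneg _
    have h4 : (99 / 100 : ℝ) ^ 2 ≤ (∑ x ∈ S, ν x) ^ 2 :=
      pow_le_pow_left₀ (by norm_num) hmass 2
    exact h4.trans (h2.trans (mul_le_mul_of_nonneg_left h3 (Nat.cast_nonneg _)))
  have hcard : 2 * P.card < 3 * S.card := by
    by_contra h2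
    push Not at h2
    have h3 : (3 : ℝ) * S.card ≤ 2 * P.card := by exact_mod_cast h2
    have h4 := mul_le_mul_of_nonneg_right h3 hE0.le
    nlinarith
  obtain ⟨H, hH⟩ := Str_grp S P hS1 hSi hP hcard
  have hHc : Nat.card H = P.card := by
    rw [Nat.card_congr (Equiv.subtypeEquivRight hH), Nat.card_eq_fintype_card, Fintype.card_coe]
  have hSP : S ⊆ P := fun x hx => (hP x).2 ⟨1, hS1, x, hx, one_mul x⟩
  have hP0 : 0 < P.card := Finset.card_pos.2 ⟨1, hSP hS1⟩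
  have hPr : (0 : ℝ) < P.card := by exact_mod_cast hP0
  have hPE : (P.card : ℝ) * E ≤ 100 / 98 := by nlinarith
  have hPmass : 99 / 100 ≤ ∑ x ∈ P, ν x :=
    hmass.trans (Finset.sum_le_sum_of_subset_of_nonneg hSP fun x _ _ => h0 x)
  refine ⟨H, ?_, ?_⟩
  · rw [hHc]
    exact hPE.trans (by norm_num)
  · rw [hHc]
    have h2 : ∑ g, (if g ∈ H then |ν g - 1 / (P.card : ℝ)| else 0) =
        ∑ g ∈ P, |ν g - 1 / (P.card : ℝ)| := by
      simp only [hH]
      rw [Finset.sum_ite_mem, Finset.univ_inter]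
    rw [h2]
    have h3 : (∑ g ∈ P, |ν g - 1 / (P.card : ℝ)|) ^ 2 ≤
        (P.card : ℝ) * ∑ g ∈ P, |ν g - 1 / (P.card : ℝ)| ^ 2 := sq_sum_le_card_mul_sum_sq
    have h4 : ∑ g ∈ P, |ν g - 1 / (P.card : ℝ)| ^ 2 =
        ∑ g ∈ P, ν g ^ 2 - 2 / (P.card : ℝ) * ∑ g ∈ P, ν g + 1 / (P.card : ℝ) := by
      have h5 : ∀ g, |ν g - 1 / (P.card : ℝ)| ^ 2 =
          ν g ^ 2 - 2 / (P.card : ℝ) * ν g + (1 / (P.card : ℝ)) ^ 2 := fun g => by
        rw [sq_abs]; ring
      simp only [h5]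
      rw [Finset.sum_add_distrib, Finset.sum_sub_distrib, ← Finset.mul_sum, Finset.sum_const,
        nsmul_eq_mul]
      congr 1
      field_simp
    have h6 : ∑ g ∈ P, ν g ^ 2 ≤ E :=
      Finset.sum_le_sum_of_subset_of_nonneg (Finset.subset_univ _) fun x _ _ => sq_nonneg _
    have h7 : (P.card : ℝ) * ∑ g ∈ P, |ν g - 1 / (P.card : ℝ)| ^ 2 =
        P.card * ∑ g ∈ P, ν g ^ 2 - 2 * ∑ g ∈ P, ν g + 1 := by
      rw [h4]
      field_simp
    rw [h7] at h3
    have h8 := mul_le_mul_of_nonneg_left h6 hPr.le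
    have h9 : (∑ g ∈ P, |ν g - 1 / (P.card : ℝ)|) ^ 2 ≤ (21 / 100 : ℝ) ^ 2 := by
      refine h3.trans ?_
      linarith
    exact (abs_le_of_sq_le_sq' h9 (by norm_num)).2

end Pool.Agent.PWL
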