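import Pool.Agent.PWL.StA

/-!
# Campaign PWL: the letter is nearly independent of the tail and nearly uniform on a subgroup

Helper2, for MP_26af1b_gt (statement of helper1, `PWL.St_Uni`).
-/

set_option autoImplicit false

open scoped BigOperators

namespace Pool.Agent.PWL

open scoped Classical

theorem Uni_jensen {B : Type} (s : Finset B) (p f : B → ℝ) (hp : ∀ b ∈ s, 0 ≤ p b)
    (h1 : ∑ b ∈ s, p b = 1) : (∑ b ∈ s, p b * f b) ^ 2 ≤ ∑ b ∈ s, p b * f b ^ 2 := by
  set m := ∑ b ∈ s, p b * f b with hm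
  have h2 : 0 ≤ ∑ b ∈ s, p b * (f b - m) ^ 2 :=
    Finset.sum_nonneg fun b hb => mul_nonneg (hp b hb) (sq_nonneg _)
  have h3 : ∑ b ∈ s, p b * (f b - m) ^ 2 =
      ∑ b ∈ s, p b * f b ^ 2 - 2 * m * ∑ b ∈ s, p b * f b + m ^ 2 * ∑ b ∈ s, p b := by
    have h4 : ∀ b ∈ s, p b * (f b - m) ^ 2 =
        p b * f b ^ 2 - 2 * m * (p b * f b) + m ^ 2 * p b := fun b _ => by ring
    rw [Finset.sum_congr rfl h4, Finset.sum_add_distrib, Finset.sum_sub_distrib,
      ← Finset.mul_sum, ← Finset.mul_sum]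
  rw [h3, h1, ← hm] at h2
  nlinarith

section

variable {Ω B G : Type}

theorem Uni_sum_cnt [Fintype G] (O : Finset Ω) (W : Ω → G) : ∑ g, cnt O W g = O.card := by
  unfold cnt
  exact (Finset.card_eq_sum_card_fiberwise (f := W) (t := Finset.univ)
    fun _ _ => Finset.mem_coe.2 (Finset.mem_univ _)).symm

theorem Uni_sum_fib (O : Finset Ω) (τ : Ω → B) : ∑ b ∈ O.image τ, (fib O τ b).card = O.card := by
  unfold fib
  exact (Finset.card_eq_sum_card_fiberwise (f := τ) (t := O.image τ)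
    fun x hx => Finset.mem_coe.2 (Finset.mem_image_of_mem τ hx)).symm

/-- decomposition of a count along the fibres -/
theorem Uni_cnt_fib (O : Finset Ω) (τ : Ω → B) (W : Ω → G) (g : G) :
    ∑ b ∈ O.image τ, cnt (fib O τ b) W g = cnt O W g := by
  unfold cnt fib
  rw [Finset.card_eq_sum_card_fiberwise (f := τ) (s := O.filter fun ω => W ω = g)
    (t := O.image τ) fun x hx => Finset.mem_coe.2 (Finset.mem_image_of_mem τ
      (Finset.mem_filter.1 (Finset.mem_coe.1 hx)).1)]
  refine Finset.sum_congr rfl fun b _ => ?_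
  rw [Finset.filter_filter, Finset.filter_filter]
  congr 1
  refine Finset.filter_congr fun x _ => ?_
  exact and_comm

theorem Uni_fib_const (O : Finset Ω) (τ : Ω → B) (u : B → G) (b : B) (g : G) :
    cnt (fib O τ b) (fun ω => u (τ ω)) g = if u b = g then (fib O τ b).card else 0 := by
  unfold cnt fib
  rw [Finset.filter_filter]
  split_ifs with h
  · congr 1
    refine Finset.filter_congr fun x _ => ?_
    constructor
    · exact fun h' => h'.1
    · intro h'
      refine ⟨h', ?_⟩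
      show u (τ x) = g
      rw [h', h]
  · rw [Finset.card_eq_zero, Finset.filter_eq_empty_iff]
    rintro x _ ⟨h1, h2⟩
    have h3 : u (τ x) = g := h2
    rw [h1] at h3
    exact h h3

theorem Uni_fib_mul [Group G] (O : Finset Ω) (τ : Ω → B) (W : Ω → G) (u : B → G) (b : B) (g : G) :
    cnt (fib O τ b) (fun ω => u (τ ω) * W ω) g = cnt (fib O τ b) W ((u b)⁻¹ * g) := by
  unfold cnt fib
  rw [Finset.filter_filter, Finset.filter_filter]
  congr 1
  refine Finset.filter_congr fun x _ => ?_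
  constructor
  · rintro ⟨h1, h2⟩
    refine ⟨h1, ?_⟩
    have h3 : u (τ x) * W x = g := h2
    rw [h1] at h3
    rw [← h3, inv_mul_cancel_left]
  · rintro ⟨h1, h2⟩
    refine ⟨h1, ?_⟩
    show u (τ x) * W x = g
    rw [h1, h2, mul_inv_cancel_left]

end

theorem thm_Uni : St_Uni := by
  intro hS Ω B G _ _ O τ W u hO h1 h2 hE
  have hn : (0 : ℝ) < O.card := by exact_mod_cast hO.card_pos
  set n : ℝ := (O.card : ℝ) with hndef
  set I : Finset B := O.image τ with hI
  have hnb : ∀ b ∈ I, (0 : ℝ) < (fib O τ b).card := by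
    intro b hb
    obtain ⟨x, hx, rfl⟩ := Finset.mem_image.1 hb
    have h3 : 0 < (fib O τ (τ x)).card := Finset.card_pos.2 ⟨x, Finset.mem_filter.2 ⟨hx, rfl⟩⟩
    exact_mod_cast h3
  let ν : G → ℝ := fun g => (cnt O W g : ℝ) / n
  let lam : B → G → ℝ := fun b g => (cnt (fib O τ b) W g : ℝ) / (fib O τ b).card
  let p : B → ℝ := fun b => ((fib O τ b).card : ℝ) / n
  have hp0 : ∀ b ∈ I, 0 ≤ p b := fun b hb => div_nonneg (hnb b hb).le hn.le
  have hp1 : ∑ b ∈ I, p b = 1 := by
    show ∑ b ∈ I, ((fib O τ b).card : ℝ) / n = 1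
    rw [← Finset.sum_div, ← Nat.cast_sum, Uni_sum_fib, div_self hn.ne']
  have hν0 : ∀ g, 0 ≤ ν g := fun g => div_nonneg (Nat.cast_nonneg _) hn.le
  have hν1 : ∑ g, ν g = 1 := by
    show ∑ g, (cnt O W g : ℝ) / n = 1
    rw [← Finset.sum_div, ← Nat.cast_sum, Uni_sum_cnt, div_self hn.ne']
  have hpl : ∀ b ∈ I, ∀ g, p b * lam b g = (cnt (fib O τ b) W g : ℝ) / n := by
    intro b hb g
    show ((fib O τ b).card : ℝ) / n * ((cnt (fib O τ b) W g : ℝ) / (fib O τ b).card) = _
    have := (hnb b hb).ne'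
    field_simp
  have hmix : ∀ g, ∑ b ∈ I, p b * lam b g = ν g := by
    intro g
    rw [Finset.sum_congr rfl fun b hb => hpl b hb g, ← Finset.sum_div, ← Nat.cast_sum, hI,
      Uni_cnt_fib]
  -- (D)
  have hD : ∑ b ∈ I, p b * ∑ g, (lam b g - ν g) ^ 2 ≤ 1 / 400000000 * ∑ g, ν g ^ 2 := by
    have e1 : ∑ b ∈ I, p b * ∑ g, (lam b g - ν g) ^ 2 =
        ∑ b ∈ I, p b * ∑ g, lam b g ^ 2 - ∑ g, ν g ^ 2 := by
      have e2 : ∀ b ∈ I, p b * ∑ g, (lam b g - ν g) ^ 2 =
          p b * ∑ g, lam b g ^ 2 - 2 * ∑ g, ν g * (p b * lam b g) + p b * ∑ g, ν g ^ 2 := by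
        intro b _
        rw [Finset.mul_sum, Finset.mul_sum, Finset.mul_sum, Finset.mul_sum,
          ← Finset.sum_sub_distrib, ← Finset.sum_add_distrib]
        refine Finset.sum_congr rfl fun g _ => ?_
        ring
      rw [Finset.sum_congr rfl e2, Finset.sum_add_distrib, Finset.sum_sub_distrib,
        ← Finset.sum_mul, hp1, one_mul, ← Finset.mul_sum, Finset.sum_comm]
      have e3 : ∑ g, ∑ b ∈ I, ν g * (p b * lam b g) = ∑ g, ν g ^ 2 := by
        refine Finset.sum_congr rfl fun g _ => ?_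
        rw [← Finset.mul_sum, hmix, sq]
      rw [e3]
      ring
    have e4 : ∑ b ∈ I, p b * ∑ g, lam b g ^ 2 ≤ (1 + 1 / 400000000) * ∑ g, ν g ^ 2 := by
      have e5 : ∑ b ∈ I, p b * ∑ g, lam b g ^ 2 =
          (∑ b ∈ I, ((fib O τ b).card : ℝ) * en (fib O τ b) W) / n := by
        rw [Finset.sum_div]
        refine Finset.sum_congr rfl fun b _ => ?_
        show ((fib O τ b).card : ℝ) / n * en (fib O τ b) W = _
        ring
      have e6 : en O W = ∑ g, ν g ^ 2 := rfl
      rw [e5, div_le_iff₀ hn]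
      refine hE.trans (le_of_eq ?_)
      rw [e6]
      ring
    rw [e1]
    linarith
  -- the convolution
  have hconv : ∀ f : G → ℝ, ∑ h, ν h * f h = ∑ b ∈ I, p b * f (u b) := by
    intro f
    have e1 : ∀ h, ν h = ∑ b ∈ I, if u b = h then p b else 0 := by
      intro h
      show (cnt O W h : ℝ) / n = _
      rw [← h1, ← Uni_cnt_fib O τ, Nat.cast_sum, Finset.sum_div]
      refine Finset.sum_congr rfl fun b _ => ?_
      rw [Uni_fib_const]
      split_ifs
      · rfl
      · simp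
    calc ∑ h, ν h * f h = ∑ h, ∑ b ∈ I, (if u b = h then p b else 0) * f h := by
          refine Finset.sum_congr rfl fun h _ => ?_
          rw [e1, Finset.sum_mul]
      _ = ∑ b ∈ I, ∑ h, (if u b = h then p b else 0) * f h := Finset.sum_comm
      _ = ∑ b ∈ I, p b * f (u b) := by
          refine Finset.sum_congr rfl fun b _ => ?_
          simp only [ite_mul, zero_mul, Finset.sum_ite_eq, Finset.mem_univ, if_true]
  have hν2 : ∀ g, ν g = ∑ b ∈ I, p b * lam b ((u b)⁻¹ * g) := by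
    intro g
    show (cnt O W g : ℝ) / n = _
    rw [← h2, ← Uni_cnt_fib O τ, Nat.cast_sum, Finset.sum_div]
    refine Finset.sum_congr rfl fun b hb => ?_
    rw [Uni_fib_mul, hpl b hb]
  have hstr : ∑ g, (ν g - ∑ h, ν h * ν (h⁻¹ * g)) ^ 2 ≤ 1 / 400000000 * ∑ g, ν g ^ 2 := by
    refine le_trans ?_ hD
    have e1 : ∀ g, (ν g - ∑ h, ν h * ν (h⁻¹ * g)) ^ 2 ≤
        ∑ b ∈ I, p b * (lam b ((u b)⁻¹ * g) - ν ((u b)⁻¹ * g)) ^ 2 := by
      intro g
      have e2 : ν g - ∑ h, ν h * ν (h⁻¹ * g) =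
          ∑ b ∈ I, p b * (lam b ((u b)⁻¹ * g) - ν ((u b)⁻¹ * g)) := by
        rw [hconv fun h => ν (h⁻¹ * g)]
        conv_lhs => rw [hν2 g]
        rw [← Finset.sum_sub_distrib]
        refine Finset.sum_congr rfl fun b _ => ?_
        ring
      rw [e2]
      exact Uni_jensen I p (fun b => lam b ((u b)⁻¹ * g) - ν ((u b)⁻¹ * g)) hp0 hp1
    refine (Finset.sum_le_sum fun g _ => e1 g).trans (le_of_eq ?_)
    rw [Finset.sum_comm]
    refine Finset.sum_congr rfl fun b _ => ?_
    rw [← Finset.mul_sum]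
    congr 1
    exact Equiv.sum_comp (Equiv.mulLeft (u b)⁻¹) fun g => (lam b g - ν g) ^ 2
  obtain ⟨H, hH1, hH2⟩ := hS ν hν0 hν1 hstr
  refine ⟨H, ?_⟩
  have hcard : ((Finset.univ.filter fun g : G => g ∈ H).card : ℝ) = Nat.card H := by
    rw [Nat.card_eq_fintype_card, Fintype.card_subtype]
  have hH0 : (0 : ℝ) < Nat.card H := by
    have : 0 < Nat.card H := Nat.card_pos
    exact_mod_cast this
  generalize (Nat.card H : ℝ) = N at hcard hH0 hH1 hH2 ⊢
  -- the mean distance
  have hA : ∑ b ∈ I, p b * ∑ g ∈ Finset.univ.filter (fun g : G => g ∈ H), |lam b g - ν g| ≤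
      1 / 100 := by
    have e1 := Uni_jensen I p
      (fun b => ∑ g ∈ Finset.univ.filter (fun g : G => g ∈ H), |lam b g - ν g|) hp0 hp1
    have e2 : ∑ b ∈ I, p b *
        (∑ g ∈ Finset.univ.filter (fun g : G => g ∈ H), |lam b g - ν g|) ^ 2 ≤
        N * ∑ b ∈ I, p b * ∑ g, (lam b g - ν g) ^ 2 := by
      rw [Finset.mul_sum]
      refine Finset.sum_le_sum fun b hb => ?_
      have e3 := sq_sum_le_card_mul_sum_sq (s := Finset.univ.filter (fun g : G => g ∈ H))
        (f := fun g => |lam b g - ν g|)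
      rw [hcard] at e3
      have e4 : ∑ g ∈ Finset.univ.filter (fun g : G => g ∈ H), |lam b g - ν g| ^ 2 ≤
          ∑ g, (lam b g - ν g) ^ 2 := by
        simp only [sq_abs]
        exact Finset.sum_le_sum_of_subset_of_nonneg (Finset.filter_subset _ _)
          fun _ _ _ => sq_nonneg _
      calc p b * (∑ g ∈ Finset.univ.filter (fun g : G => g ∈ H), |lam b g - ν g|) ^ 2
          ≤ p b * (N * ∑ g, (lam b g - ν g) ^ 2) :=
            mul_le_mul_of_nonneg_left (e3.trans (mul_le_mul_of_nonneg_left e4 hH0.le))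
              (hp0 b hb)
        _ = N * (p b * ∑ g, (lam b g - ν g) ^ 2) := by ring
    have e5 : N * ∑ b ∈ I, p b * ∑ g, (lam b g - ν g) ^ 2 ≤ (1 / 100) ^ 2 := by
      calc N * ∑ b ∈ I, p b * ∑ g, (lam b g - ν g) ^ 2
          ≤ N * (1 / 400000000 * ∑ g, ν g ^ 2) := mul_le_mul_of_nonneg_left hD hH0.le
        _ = 1 / 400000000 * (N * ∑ g, ν g ^ 2) := by ring
        _ ≤ 1 / 400000000 * (103 / 100) := by
            apply mul_le_mul_of_nonneg_left hH1
            norm_num
        _ ≤ (1 / 100) ^ 2 := by norm_num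
    exact le_of_sq_le_sq (e1.trans (e2.trans e5)) (by norm_num)
  -- conclusion
  have hfin : ∀ b ∈ I, ∑ g, (if g ∈ H then
      |(cnt (fib O τ b) W g : ℝ) - (fib O τ b).card / N| else 0) ≤
      n * (p b * ∑ g ∈ Finset.univ.filter (fun g : G => g ∈ H), |lam b g - ν g| +
        p b * (21 / 100)) := by
    intro b hb
    have hb' := hnb b hb
    rw [← Finset.sum_filter]
    have e1 : ∀ g, |(cnt (fib O τ b) W g : ℝ) - (fib O τ b).card / N| =
        n * (p b * |lam b g - 1 / N|) := by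
      intro g
      have e2 : (cnt (fib O τ b) W g : ℝ) - (fib O τ b).card / N =
          (fib O τ b).card * (lam b g - 1 / N) := by
        show _ = ((fib O τ b).card : ℝ) *
          ((cnt (fib O τ b) W g : ℝ) / (fib O τ b).card - 1 / N)
        field_simp
      rw [e2, abs_mul, abs_of_pos hb']
      show _ = n * (((fib O τ b).card : ℝ) / n * |lam b g - 1 / N|)
      field_simp
    rw [Finset.sum_congr rfl fun g _ => e1 g, ← Finset.mul_sum, ← Finset.mul_sum, ← mul_add]
    refine mul_le_mul_of_nonneg_left ?_ hn.le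
    refine mul_le_mul_of_nonneg_left ?_ (hp0 b hb)
    calc ∑ g ∈ Finset.univ.filter (fun g : G => g ∈ H), |lam b g - 1 / N|
        ≤ ∑ g ∈ Finset.univ.filter (fun g : G => g ∈ H), (|lam b g - ν g| + |ν g - 1 / N|) :=
          Finset.sum_le_sum fun g _ => abs_sub_le _ _ _
      _ = ∑ g ∈ Finset.univ.filter (fun g : G => g ∈ H), |lam b g - ν g| +
          ∑ g ∈ Finset.univ.filter (fun g : G => g ∈ H), |ν g - 1 / N| :=
          Finset.sum_add_distrib
      _ ≤ _ := by
          rw [← Finset.sum_filter] at hH2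
          linarith
  refine (Finset.sum_le_sum hfin).trans ?_
  rw [← Finset.mul_sum, Finset.sum_add_distrib, ← Finset.sum_mul, hp1]
  nlinarith

end Pool.Agent.PWL

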