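import Pool.Agent.PWL.St
import Pool.Agent.PWS.Cost
import Pool.Agent.PWH.St

/-!
# Campaign PWL: the cost of a subgroup, with a step for every finite group
-/

set_option autoImplicit false

namespace Pool.Agent.PWL

open Pool.Agent.PW Pool.Agent.PWM Pool.Agent.PWB Pool.Agent.PWX Pool.Agent.PWS Pool.Agent.PWH

/-- The subgroup `N` of `G` can be reached from `⊤` with cost `s`.  Steps from `N` to a smaller
subgroup `M`:
* `M` contains the kernel of a homomorphism from `N` to a finite group `Q`: cost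
  `C (log₂ |Q| + 1) ^ 2`;
* `M` contains the kernel of a homomorphism from `N` to a section `S/T` of `SL_2(F_p)` for some prime
  `p`: cost `C`;
* `N`, `M` normal in `G`, `N/M` solvable, `G/M` generated by `d` elements: cost `d + 2`;
* `M` has index `r + 1` in `N`: cost `r`;
* `N/M` is cyclic: cost 1;
* `N/M` is an abelian chief factor of `G`: cost 1;
* `N`, `M` normal, `N/M` central in `G/M` and made of non-generators of `G/M`: no cost. -/
inductive Cost7 (C : ℕ) (G : Type) [Group G] : ℕ → Subgroup G → Prop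
  | top : Cost7 C G 0 ⊤
  | hom {s : ℕ} {N M : Subgroup G} (Q : Type) [Group Q] [Finite Q] (σ : N →* Q) :
      Cost7 C G s N → M ≤ N → (∀ x : N, σ x = 1 → (x : G) ∈ M) →
      Cost7 C G (s + C * (Nat.log 2 (Nat.card Q) + 1) ^ 2) M
  | sl2 {s : ℕ} {N M : Subgroup G} (p : ℕ) [Fact p.Prime]
      (S : Subgroup (Matrix.SpecialLinearGroup (Fin 2) (ZMod p))) (T : Subgroup S) [T.Normal]
      (σ : N →* S ⧸ T) : Cost7 C G s N → M ≤ N → (∀ x : N, σ x = 1 → (x : G) ∈ M) →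
      Cost7 C G (s + C) M
  | solvable {s d : ℕ} {N M : Subgroup G} [N.Normal] [M.Normal] : Cost7 C G s N → M ≤ N →
      Group.IsSolvable (N.map (QuotientGroup.mk' M)) →
      (∃ S : Finset G, S.card ≤ d ∧ Subgroup.closure (S : Set G) ⊔ M = ⊤) →
      Cost7 C G (s + (d + 2)) M
  | index {s r : ℕ} {N M : Subgroup G} : Cost7 C G s N → M ≤ N → M.relIndex N = r + 1 →
      Cost7 C G (s + r) M
  | cyclic {s : ℕ} {N M : Subgroup G} : Cost7 C G s N → M ≤ N →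
      (∀ x ∈ N, ∀ y ∈ M, x * y * x⁻¹ ∈ M) → (∃ c ∈ N, ∀ x ∈ N, ∃ k : ℤ, (c ^ k)⁻¹ * x ∈ M) →
      Cost7 C G (s + 1) M
  | chief {s : ℕ} {N M : Subgroup G} : Cost7 C G s N → N.Normal → M.Normal → M ≤ N →
      (∀ x ∈ N, ∀ y ∈ N, x * y * x⁻¹ * y⁻¹ ∈ M) →
      (∀ L : Subgroup G, L.Normal → M ≤ L → L ≤ N → L = M ∨ L = N) → Cost7 C G (s + 1) M
  | frattini {s : ℕ} {N M : Subgroup G} : Cost7 C G s N → N.Normal → M.Normal → M ≤ N →
      (∀ x ∈ N, ∀ y, x * y * x⁻¹ * y⁻¹ ∈ M) → (∀ H : Subgroup G, H ⊔ N = ⊤ → H ⊔ M = ⊤) →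
      Cost7 C G s M

/-- The old cost. -/
theorem cost7_of_cost2 (C : ℕ) {G : Type} [Group G] {s : ℕ} {N : Subgroup G} (h : Cost2 G s N) :
    Cost7 C G s N := by
  induction h with
  | top => exact Cost7.top
  | cyclic _ h1 h2 h3 ih => exact Cost7.cyclic ih h1 h2 h3
  | chief _ h1 h2 h3 h4 h5 ih => exact Cost7.chief ih h1 h2 h3 h4 h5
  | frattini _ h1 h2 h3 h4 h5 ih => exact Cost7.frattini ih h1 h2 h3 h4 h5
  | index _ h1 h2 ih => exact Cost7.index ih h1 h2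

/-- A step to the kernel of a homomorphism which kills handles. -/
theorem go_step {Q : Type} [Group Q] {g n s c : ℕ} {N M : Subgroup Q} {Γ : Type} [Group Γ]
    (hD : ∀ ρ : F c 0 →* Γ, Dead ρ) (σ : N →* Γ) (hσ : ∀ x : N, σ x = 1 → (x : Q) ∈ M)
    (hs : s + c ≤ g) (ρ : F g n →* Q) {φ : MulAut (F g n)} (hφ : φ ∈ MCG g n)
    (h1 : Inv (g - s) N (ρ.comp (MulEquiv.toMonoidHom φ))) :
    ∃ φ' ∈ MCG g n, Inv (g - (s + c)) M (ρ.comp (MulEquiv.toMonoidHom φ')) := by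
  rcases Nat.eq_zero_or_pos (g - (s + c)) with h0 | h0
  · refine ⟨φ, hφ, fun i hi => ?_⟩
    rw [h0] at hi
    exact absurd hi (Nat.not_lt_zero _)
  · let A : Subgroup (F g n) := N.comap ρ
    let τ : A →* Γ := σ.comp (ρ.subgroupComap N)
    obtain ⟨φ', hφ', h2⟩ := Itr_step (m := g - (s + c)) (m' := g - s)
      hD (by omega) (by omega) A τ hφ (fun i hi => h1 i hi)
    refine ⟨φ', hφ', fun i hi => ?_⟩
    obtain ⟨⟨a1, a2⟩, b1, b2⟩ := h2 i hi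
    exact ⟨hσ ⟨ρ (φ' (ga i)), a1⟩ a2, hσ ⟨ρ (φ' (gb i)), b1⟩ b2⟩

/-- After a mapping class the first `g - s` handles go to `N`, if `N` has cost `s`. -/
theorem go_of_cost7 (kcyc : St_KCyc) (kchr : St_KChr) (kchief : St_KChief) (kfrat : St_KFrat)
    (kind : PWX.St_Ind) (hSol : St_Sol) (hAny : St_Any) {C : ℕ} (hC0 : 2000000000 ≤ C)
    (hC : ∀ (p : ℕ) [Fact p.Prime] (ρ : F C 0 →* SL p), Dead ρ)
    {Q : Type} [Group Q] [Finite Q] {g n s : ℕ} {N : Subgroup Q}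
    (hc : Cost7 C Q s N) (hs : s ≤ g) (ρ : F g n →* Q) (hρ : Function.Surjective ρ) :
    ∃ φ ∈ MCG g n, Inv (g - s) N (ρ.comp (MulEquiv.toMonoidHom φ)) := by
  induction hc with
  | top => exact ⟨1, (MCG g n).one_mem, fun i _ => ⟨Subgroup.mem_top _, Subgroup.mem_top _⟩⟩
  | @hom s N M Γ _ _ σ _ hMN hσ ih =>
    obtain ⟨φ, hφ, h1⟩ := ih (by omega)
    exact go_step (fun ρ => hAny _ (Nat.mul_le_mul_right _ hC0) ρ) σ hσ hs ρ hφ h1
  | @sl2 s N M p _ S T _ σ _ hMN hσ ih =>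
    obtain ⟨φ, hφ, h1⟩ := ih (by omega)
    exact go_step (dead_of_section (hC p) S T) σ hσ hs ρ hφ h1
  | @solvable s d N M _ _ _ hMN hso hd ih =>
    obtain ⟨φ, hφ, h1⟩ := ih (by omega)
    have e : g - s = (g - (s + (d + 2))) + (d + 2) := by omega
    rw [e] at h1
    obtain ⟨ψ, hψ, h2⟩ := hSol (by omega) (ρ.comp (MulEquiv.toMonoidHom φ)) N M
      (hρ.comp φ.surjective) hMN hso hd h1
    exact ⟨φ * ψ, (MCG g n).mul_mem hφ hψ, h2⟩
  | @index s r N M _ hMN hr ih =>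
    obtain ⟨φ, hφ, h1⟩ := ih (by omega)
    have e : g - s = (g - (s + r)) + r := by omega
    rw [e] at h1
    obtain ⟨ψ, hψ, h2⟩ := kind (by omega) (ρ.comp (MulEquiv.toMonoidHom φ)) N M hr h1
    exact ⟨φ * ψ, (MCG g n).mul_mem hφ hψ, h2⟩
  | @cyclic s N M _ hMN hn hc ih =>
    obtain ⟨φ, hφ, h1⟩ := ih (by omega)
    obtain ⟨m, X, hX⟩ := kchr hMN hn hc
    have e : g - s = (g - (s + 1)) + 1 := by omega
    rw [e] at h1
    obtain ⟨ψ, hψ, h2⟩ := kcyc hX (by omega) (ρ.comp (MulEquiv.toMonoidHom φ)) h1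
    exact ⟨φ * ψ, (MCG g n).mul_mem hφ hψ, h2⟩
  | @chief s N M _ hN hM hMN hab hmin ih =>
    obtain ⟨φ, hφ, h1⟩ := ih (by omega)
    have e : g - s = (g - (s + 1)) + 1 := by omega
    rw [e] at h1
    obtain ⟨ψ, hψ, h2⟩ := kchief (by omega) (ρ.comp (MulEquiv.toMonoidHom φ)) N M
      (hρ.comp φ.surjective) hN hM hMN hab hmin h1
    exact ⟨φ * ψ, (MCG g n).mul_mem hφ hψ, h2⟩
  | @frattini s N M _ hN hM hMN hz hg ih =>
    obtain ⟨φ, hφ, h1⟩ := ih hs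
    obtain ⟨ψ, hψ, h2⟩ := kfrat (by omega) (ρ.comp (MulEquiv.toMonoidHom φ)) N M
      (hρ.comp φ.surjective) hN hM hMN hz hg h1
    exact ⟨φ * ψ, (MCG g n).mul_mem hφ hψ, h2⟩

/-- More handles. -/
theorem dead_mono {Γ : Type} [Group Γ] {h h' : ℕ} (hh : h ≤ h') (hD : ∀ ρ : F h 0 →* Γ, Dead ρ)
    (ρ : F h' 0 →* Γ) : Dead ρ := by
  have h0 : 0 < h := by
    obtain ⟨_, _, h0, _⟩ := hD 1
    exact h0
  obtain ⟨ψ, hψ, h1⟩ := Itr_many hD 1 h' (by omega) ρ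
  obtain ⟨h2, h3⟩ := h1 ⟨0, by omega⟩ Nat.zero_lt_one
  refine ⟨ψ, ⟨?_, fun j => j.elim0⟩, by omega, h2, h3⟩
  have h4 : ψ (bdry h' 0) = bdry h' 0 := hψ
  rw [h4]

end Pool.Agent.PWL
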