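import Pool.Agent.PWL.St

/-!
# Campaign PWL, module Any: every homomorphism to a finite group kills a handle
-/

set_option autoImplicit false

namespace Pool.Agent.PWL

open Pool.Agent.PW Pool.Agent.PWM Pool.Agent.PWB Pool.Agent.PWX Pool.Agent.PWF
open scoped Classical

theorem thm_Any
    (hH : ∀ {G : Type} [Group G] [Finite G] (L : List (G × G)),
      1 + 400000000 * (Nat.log 2 (Nat.card G) + 1) * (4 * (Nat.log 2 (Nat.card G) + 1)) ≤
        L.length → ∃ (p : G × G) (L' : List (G × G)), LG L (p :: L') ∧ p.2 = 1)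
    (hD : ∀ {G : Type} [Group G] [Finite G] (K : ℕ),
      (∀ L : List (G × G), K ≤ L.length →
        ∃ (p : G × G) (L' : List (G × G)), LG L (p :: L') ∧ p.2 = 1) →
      ∀ L : List (G × G), K + Nat.log 2 (Nat.card G) + 1 ≤ L.length →
      ∃ L' : List (G × G), LG L ((1, 1) :: L')) : St_Any := by
  intro Q _ _ h hh ρ
  obtain ⟨n, hn⟩ : ∃ n, n = Nat.log 2 (Nat.card Q) + 1 := ⟨_, rfl⟩
  have hn1 : 1 ≤ n := by omega
  rw [← hn] at hh
  have hlen : (lst ρ 0 h).length = h := by simp [lst]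
  obtain ⟨L', hL'⟩ := hD (G := Q) (1 + 1600000000 * n ^ 2) (fun L hL => by
    refine hH L ?_
    rw [← hn]
    have e : 400000000 * n * (4 * n) = 1600000000 * n ^ 2 := by ring
    rw [e]
    exact hL) (lst ρ 0 h) (by
    rw [hlen]
    have e : n ≤ n ^ 2 := by nlinarith
    have e2 : 1 ≤ n ^ 2 := Nat.one_le_pow _ _ hn1
    omega)
  obtain ⟨φ, hφ, h1, -⟩ := PWH.bRea ρ ((1, 1) :: L') (show 0 + h ≤ h by omega) hL'
  have h0 : 0 < h := by
    have e2 : 1 ≤ n ^ 2 := Nat.one_le_pow _ _ hn1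
    omega
  have h2 : vls (ρ.comp (MulEquiv.toMonoidHom φ)) 0 = (1, 1) := by
    have e3 : (lst (ρ.comp (MulEquiv.toMonoidHom φ)) 0 h)[0]? = some (1, 1) := by
      rw [h1]
      rfl
    unfold lst at e3
    rw [List.getElem?_map, List.getElem?_range h0] at e3
    simpa using e3
  unfold vls at h2
  rw [dif_pos h0] at h2
  exact ⟨φ, hφ, h0, congrArg Prod.fst h2, congrArg Prod.snd h2⟩

end Pool.Agent.PWL
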