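import Pool.Agent.PWL.Str
import Pool.Agent.PWL.Uni
import Pool.Agent.PWL.Dsb
import Pool.Agent.PWL.Grw
import Pool.Agent.PWL.Eng
import Pool.Agent.PWL.Frt
import Pool.Agent.PWL.Cub
import Pool.Agent.PWL.Hlf
import Pool.Agent.PWL.Ded
import Pool.Agent.PWL.Any

/-!
# Campaign PWL: assembly
-/

set_option autoImplicit false

namespace Pool.Agent.PWL

theorem all_Any : St_Any := by
  have hStr : St_Str := thm_Str
  have hUni : St_Uni := thm_Uni
  have hDsb : St_Dsb := thm_Dsb
  have hGrw : St_Grw := thm_Grw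
  have hEng : St_Eng := thm_Eng
  have hFrt : St_Frt := thm_Frt
  have hCub : St_Cub := thm_Cub
  have hHlf : St_Hlf := thm_Hlf
  have hDed : St_Ded := thm_Ded
  refine @thm_Any (fun {G} _ _ L hL => ?_) (fun {G} _ _ K h1 L hL => ?_)
  · exact hHlf hStr hUni hDsb hGrw hEng hFrt hCub L hL
  · exact hDed hFrt K h1 L hL

end Pool.Agent.PWL
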