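import Mathlib

/-!
# Campaign PWL: definitions, first part (only Mathlib)

`open scoped Classical` is in force.
-/

set_option autoImplicit false

open scoped BigOperators

namespace Pool.Agent.PWL

open scoped Classical

/-- The number of the elements of `O` at which `W` takes the value `g`. -/
noncomputable def cnt {Ω G : Type} (O : Finset Ω) (W : Ω → G) (g : G) : ℕ :=
  (O.filter fun ω => W ω = g).card

/-- The energy of the distribution of `W` on `O`. -/
noncomputable def en {Ω G : Type} [Fintype G] (O : Finset Ω) (W : Ω → G) : ℝ :=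
  ∑ g : G, ((cnt O W g : ℝ) / O.card) ^ 2

/-- The fibre of `τ` over `b` in `O`. -/
noncomputable def fib {Ω B : Type} (O : Finset Ω) (τ : Ω → B) (b : B) : Finset Ω :=
  O.filter fun ω => τ ω = b

/-- The products `x_(i_r) ⋯ x_(i_2) x_(i_1)`, `i_1 < i_2 < ⋯ < i_r`, of entries in `H` of a list. -/
noncomputable def Ds {G : Type} [Group G] (H : Subgroup G) : List G → Finset G
  | [] => {1}
  | x :: xs => if x ∈ H then Ds H xs ∪ (Ds H xs).image (fun d => d * x) else Ds H xs

end Pool.Agent.PWL
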