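import Pool.Agent.PWH.Base
import Pool.Agent.PWL.DefsA

/-!
# Campaign PWL: definitions

Aim (`St_Any`): a homomorphism from `F h 0` to a finite group `Q` kills a handle, if `h` is at least
`C * (log₂ |Q| + 1) ^ 2`, `C` an absolute constant.  The systems of handle values are lists of pairs, `LG` are the
moves of the campaign PWF (files PWF/Defs, PWF/St; proven: PWH/Base).
-/

set_option autoImplicit false

open scoped BigOperators

namespace Pool.Agent.PWL

open Pool.Agent.PW Pool.Agent.PWM Pool.Agent.PWB Pool.Agent.PWX Pool.Agent.PWF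
open scoped Classical

/-- A nonempty set of lists of `k` pairs which is closed under the moves. -/
structure Cl {G : Type} [Group G] (k : ℕ) (O : Finset (List (G × G))) : Prop where
  ne : O.Nonempty
  len : ∀ L ∈ O, L.length = k
  mv : ∀ L ∈ O, ∀ L', LG L L' → L' ∈ O

/-- The second value of the first handle. -/
def hd2 {G : Type} [Group G] (L : List (G × G)) : G := (L.headD (1, 1)).2

/-- The slide of the handle `p` over its right neighbour `q`: it multiplies `p.2` by `q.2`. -/
def mg {G : Type} [Group G] (p q : G × G) : (G × G) × (G × G) :=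
  ((p.1, (tv (rt (rt q)))⁻¹ * p.2),
    ((tv (rt (rt q)))⁻¹ * (p.2 * p.1 * p.2⁻¹) * tv (rt (rt q)) * (rt (rt q)).1, (rt (rt q)).2))

end Pool.Agent.PWL
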