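import Pool.Agent.PWL.DefsA

/-!
# Campaign PWL: statements, first part (only Mathlib)

Aim of the campaign: a homomorphism from the group of a surface of genus `K` to a finite group `Q` kills a handle if
`K ≥ C (log |Q|) ^ 2`.  The idea is explained in the file PWL/St.  This part: analysis and combinatorics on finite
groups.  `open scoped Classical` is in force everywhere.
-/

set_option autoImplicit false

open scoped BigOperators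

namespace Pool.Agent.PWL

open scoped Classical

/-! ### Analysis on a finite group -/

/-- (Str) A nearly idempotent probability is nearly uniform on a subgroup.
Proof.  `E = ∑ ν g ^ 2 > 0`.  `c x = ∑ g, ν (x⁻¹ * g) * ν g`.  `0 ≤ c x ≤ E` (Cauchy-Schwarz, translation of the sum), `c 1 = E`, `c x⁻¹ = c x`, `∑ c x = 1`,
`∑ g, (ν (x⁻¹ * g) - ν g) ^ 2 = 2 E - 2 c x`.  `∑ x, ν x * c x = ∑ g, (∑ h, ν h * ν (h⁻¹ * g)) * ν g = E + ∑ g, ((ν * ν) g - ν g) * ν g ≥ E - √(E / 400000000) √E =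
E (1 - 1 / 20000)` (Cauchy-Schwarz).  So `∑ x, ν x (E - c x) ≤ E / 20000`.  Let `S = {x | c x ≥ (1 - 1 / 200) E}`: the `ν`-mass of the complement is at
most `200 / 20000 = 1 / 100`.  `1 ∈ S`, `S⁻¹ = S`.  For `x, y ∈ S`: `ν ((x y)⁻¹ g) - ν g = (ν (y⁻¹ (x⁻¹ g)) - ν (x⁻¹ g)) + (ν (x⁻¹ g) - ν g)`, so (with `(a + b) ^ 2 ≤ 2 a ^ 2 + 2 b ^ 2`)
`2 E - 2 c (x y) ≤ 2 (E / 100) + 2 (E / 100)`, `c (x y) ≥ 98 / 100 E`.  As `∑ c = 1`: `|S * S| ≤ 1 / (98 / 100 E)`; and `(99 / 100) ^ 2 ≤ (∑ x ∈ S, ν x) ^ 2 ≤ |S| E`.  So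
`|S * S| < 3 / 2 |S|`.  Then `H = S * S` is a subgroup: for `a, b ∈ S` the sets `S a⁻¹`, `S b⁻¹` lie in `S * S` and have `|S|` elements, so they meet in more than `|S| / 2`
elements: `|S ∩ S (b⁻¹ a)| > |S| / 2`.  So for all `y ∈ S * S` (`S = S⁻¹`) `|S ∩ S y| > |S| / 2`.  For `y, z ∈ S * S` there is `s ∈ (S ∩ S y) ∩ (S ∩ S z⁻¹)`: `s₁ y = s₂ z⁻¹`, `y z = s₁⁻¹ s₂ ∈ S * S`.
`|H| E ≤ 100 / 98`, the mass of `H` is at least `99 / 100`, so `|H| ∑ g ∈ H, (ν g - 1 / |H|) ^ 2 ≤ |H| E - 2 (99 / 100) + 1 ≤ 441 / 10000`, and Cauchy-Schwarz: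
`(∑ g ∈ H, |ν g - 1 / |H||) ^ 2 ≤ 441 / 10000 = (21 / 100) ^ 2`. -/
def St_Str : Prop := ∀ {G : Type} [Group G] [Fintype G] (ν : G → ℝ), (∀ g, 0 ≤ ν g) →
  ∑ g, ν g = 1 →
  ∑ g, (ν g - ∑ h, ν h * ν (h⁻¹ * g)) ^ 2 ≤ 1 / 400000000 * ∑ g, ν g ^ 2 →
  ∃ H : Subgroup G, (Nat.card H : ℝ) * ∑ g, ν g ^ 2 ≤ 103 / 100 ∧
    ∑ g, (if g ∈ H then |ν g - 1 / (Nat.card H : ℝ)| else 0) ≤ 21 / 100

/-- (Uni) Little energy is gained: the letter is nearly independent of the tail and nearly uniform on a subgroup.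
Proof.  `ν g = cnt O W g / |O|`, `λ_b g = cnt (fib O τ b) W g / |fib O τ b|`, `π_b = |fib O τ b| / |O|` for `b ∈ O.image τ` (`> 0`).  `∑ ν = 1`, `∑ π_b = 1`, `∑_b π_b λ_b = ν`.  So
`∑_b π_b ∑_g (λ_b g - ν g) ^ 2 = ∑_b π_b en (fib O τ b) W - en O W ≤ en O W / 400000000`  (D).  By `h1` `∑_h ν h ν (h⁻¹ g) = ∑_b π_b ν ((u b)⁻¹ g)`; by `h2` `ν g = ∑_b π_b λ_b ((u b)⁻¹ g)` (the elements of the fibre over `b` with
`u b * W ω = g`).  So `(ν g - ∑_h ν h ν (h⁻¹ g)) ^ 2 ≤ ∑_b π_b (λ_b - ν) ((u b)⁻¹ g) ^ 2` (Cauchy-Schwarz) and the sum over `g` is `≤ en O W / 400000000`.  `hS` gives `H`.  Finally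
`∑_b π_b ∑_(g ∈ H) |λ_b g - 1 / |H|| ≤ ∑_b π_b ∑_(g ∈ H) |λ_b g - ν g| + 21 / 100`, and the square of the first sum is `≤ |H| ∑_b π_b ∑_g (λ_b g - ν g) ^ 2 ≤ (103 / 100) / 400000000 ≤ (1 / 100) ^ 2` by (D).  Multiply by `|O|`. -/
def St_Uni : Prop := St_Str → ∀ {Ω B G : Type} [Group G] [Fintype G] (O : Finset Ω) (τ : Ω → B)
  (W : Ω → G) (u : B → G), O.Nonempty →
  (∀ g, cnt O (fun ω => u (τ ω)) g = cnt O W g) →
  (∀ g, cnt O (fun ω => u (τ ω) * W ω) g = cnt O W g) →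
  ∑ b ∈ O.image τ, ((fib O τ b).card : ℝ) * en (fib O τ b) W ≤
    (1 + 1 / 400000000) * (O.card * en O W) →
  ∃ H : Subgroup G, ∑ b ∈ O.image τ, ∑ g, (if g ∈ H then
    |(cnt (fib O τ b) W g : ℝ) - (fib O τ b).card / Nat.card H| else 0) ≤ 1 / 4 * O.card

/-- (Dsb) The sets of products.
Proof.  Induction on the list.  The last part: `D ⊆ H`, `x ∈ H`: `∑_(x ∈ H) |D ∩ D x| = ∑_(d, d' ∈ D) #{x ∈ H | d' x = d} = |D| ^ 2`. -/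
def St_Dsb : Prop := ∀ {G : Type} [Group G] [Fintype G] (H : Subgroup G),
  (∀ xs : List G, 1 ∈ Ds H xs ∧ ∀ d ∈ Ds H xs, d ∈ H) ∧
  (∀ (xs : List G) (i : ℕ), Ds H (xs.drop i) ⊆ Ds H xs) ∧
  ∀ D : Finset G, (∀ d ∈ D, d ∈ H) →
    ∑ x, (if x ∈ H then ((D ∩ D.image (fun d => d * x)).card : ℝ) else 0) = (D.card : ℝ) ^ 2

/-- (Grw) Growth of the sets of products; the inverse of the letter is reached.
Proof.  Write `D xs = Ds H xs`, `θ xs = |D xs| / |H| ≤ 1`, `T ω = l (τ ω)`, `E` for the mean over `O`.  For `i < m` the function `f` of `hf` permutes `O`, so for every `F`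
`E F ((T ω)[i], (T ω).drop (i + 1)) = E F (W ω, (T ω).drop (i + 1))`  (P).  Let `F (x, xs) = log |D (x :: xs)| - log |D xs|`; `(T ω).drop i = (T ω)[i] :: (T ω).drop (i + 1)`, so (P) says
`E log |D (T.drop i)| - E log |D (T.drop (i + 1))| = E F (W, T.drop (i + 1))`.  `F (x, xs) = 0` if `x ∉ H`; if `x ∈ H`, with `D = D xs`, `|D ∪ D x| = 2 |D| - |D ∩ D x|` and `log r ≥ (r - 1) / 2` for `1 ≤ r ≤ 2`
(`log r ≥ 1 - 1 / r`): `F (x, xs) ≥ (1 - |D ∩ D x| / |D|) / 2 ∈ [0, 1 / 2]`.  Group the sum over `O` by `b = τ ω`; `T.drop (i + 1)` depends only on `b`: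
`∑_ω F (W ω, ..) ≥ ∑_b ∑_(g ∈ H) cnt (fib O τ b) W g (1 - |D ∩ D g| / |D|) / 2 ≥ ∑_b (|fib O τ b| / |H|) ∑_(g ∈ H) (1 - |D ∩ D g| / |D|) / 2 - (1 / 2) (1 / 4) |O|`, and `∑_(g ∈ H) (1 - |D ∩ D g| / |D|) = |H| - |D|` (`hD`).  So
`E log |D (T.drop i)| - E log |D (T.drop (i + 1))| ≥ (E (1 - θ (T.drop (i + 1))) - 1 / 4) / 2 ≥ (E (1 - θ T) - 1 / 4) / 2`.  Sum over `i < m`, `T.drop m = []`, `log |D []| = 0`, `|D T| ≤ |G|`: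
`log |G| ≥ m (E (1 - θ T) - 1 / 4) / 2`.  As `4 log |G| < m`: `E (1 - θ T) < 3 / 4`.  If no `ω ∈ O` had `(W ω)⁻¹ ∈ D (T ω)`, then `cnt (fib O τ b) W d⁻¹ = 0` for all `d ∈ D (l b)`, and the hypothesis `hu` gives (the `d⁻¹`
lie in `H`) `∑_b |D (l b)| |fib O τ b| / |H| ≤ |O| / 4`, `E θ T ≤ 1 / 4`: contradiction. -/
def St_Grw : Prop := St_Dsb → ∀ {Ω B G : Type} [Group G] [Fintype G] (O : Finset Ω) (τ : Ω → B)
  (W : Ω → G) (l : B → List G) (m : ℕ) (H : Subgroup G), O.Nonempty →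
  (∀ ω ∈ O, (l (τ ω)).length = m) →
  (∀ i, i < m → ∃ f : Ω → Ω, (∀ ω ∈ O, f ω ∈ O) ∧ Set.InjOn f (O : Set Ω) ∧
    ∀ ω ∈ O, (l (τ ω))[i]? = some (W (f ω)) ∧
      (l (τ (f ω))).drop (i + 1) = (l (τ ω)).drop (i + 1)) →
  ∑ b ∈ O.image τ, ∑ g, (if g ∈ H then
    |(cnt (fib O τ b) W g : ℝ) - (fib O τ b).card / Nat.card H| else 0) ≤ 1 / 4 * O.card →
  4 * Real.log (Fintype.card G) < m →
  ∃ ω ∈ O, (W ω)⁻¹ ∈ Ds H (l (τ ω))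

end Pool.Agent.PWL
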