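import Pool.Agent.PWL.Defs
import Pool.Agent.PWL.StA
import Pool.Agent.PWS.Defs

/-!
# Campaign PWL: statements (any finite group, `(log |Q|) ^ 2` handles)

Idea.  Let `O` be a set of lists of `K` pairs closed under the moves, with the uniform probability.  If a tail of
handles is fixed, the rest is again closed under the moves.  The energy `en` of the distribution of the letter `hd2`
(second value of the first handle) lies between `1 / |G|` and `1`; it increases on average when the tail is fixed; so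
after `O (log |G|)` steps of `m = 4 (log₂ |G| + 1)` handles there is a step without increase (`St_Eng`).  Then the
letter of the first handle is nearly independent of the `m` handles of the tail.  By the moves all the letters and also the product of two
letters of different handles have the same distribution `ν`, so `ν * ν` is nearly `ν` in `L²`, and `ν` is nearly uniform on a
subgroup `H` (`St_Str`, `St_Uni`).  The set `Ds H` of the products of the letters of the tail grows until it contains more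
than a quarter of `H`, and the inverse of the letter of the first handle lies in it for some element of `O` (`St_Grw`).  The
moves make this letter `1` (`St_Cub`, `St_Hlf`).  With `log₂ |G| + 1` more handles a handle is killed (`St_Ded`).

`open scoped Classical` is in force everywhere.
-/

set_option autoImplicit false

open scoped BigOperators

namespace Pool.Agent.PWL

open Pool.Agent.PW Pool.Agent.PWM Pool.Agent.PWB Pool.Agent.PWX Pool.Agent.PWF
open scoped Classical

/-! ### Lists -/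

/-- (Eng) A step without gain of energy.
Proof.  `1 / |G| ≤ en O W ≤ 1` for `O ≠ ∅` (`∑ cnt O W g = |O|`; Cauchy-Schwarz; `cnt ≤ |O|`).  Claim, by induction on `s`: the conclusion holds if `Cl (1 + s * m) O` and `1 < (1 + ε) ^ s * en O hd2`.  `s = 0`: impossible.
Step: `k = 1 + (s + 1) * m`, `τ = List.drop (k - m)`.  If the inequality holds for `O` itself take `j = k`, `O' = O`, `b = []`.  Otherwise, as `∑_t |fib O τ t| = |O|`, some `t ∈ O.image τ` has `en (fib O τ t) hd2 > (1 + ε) en O hd2`.  Let `O₁` be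
the image of `fib O τ t` under `List.take (k - m)`, that is the set of the lists `L` of length `k - m = 1 + s * m` with `L ++ t ∈ O`; `Cl (k - m) O₁`: `LG L L'` implies `LG (L ++ t) (L' ++ t)` (`bBas`, app with `p = []`), `en O₁ hd2 = en (fib O τ t) hd2`
(the bijection `L ↦ L ++ t`, `hd2` does not change since `k - m ≥ 1`).  The induction hypothesis for `O₁` gives `j, O', b'`; `b = b' ++ t`. -/
def St_Eng : Prop := ∀ {G : Type} [Group G] [Fintype G] (m s : ℕ) (ε : ℝ), 0 < ε →
  (Fintype.card G : ℝ) < (1 + ε) ^ s → ∀ O : Finset (List (G × G)), Cl (1 + s * m) O →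
  ∃ (j : ℕ) (O' : Finset (List (G × G))) (b : List (G × G)), m + 1 ≤ j ∧ Cl j O' ∧
    (∀ L ∈ O', L ++ b ∈ O) ∧
    ∑ t ∈ O'.image (List.drop (j - m)), ((fib O' (List.drop (j - m)) t).card : ℝ) *
      en (fib O' (List.drop (j - m)) t) hd2 ≤ (1 + ε) * (O'.card * en O' hd2)

/-- (Frt) A handle moves to the left end and is not changed; the slide; the two maps on a closed set.
Proof.  (1) Induction on `P` with the swap of `bBas` (in context).  (2) `[p, q]` to `[p, rt (rt q)]` (rotation twice), then the slide of `bBas`; `tv (rt (rt q)) = q.2⁻¹` (`tv_rt2`).  (3) `rt` is injective; the slide: let `(p', q') = mg p q`, `r = rt (rt q)`, `t = tv r`, `ξ = p.2 * p.1 * p.2⁻¹`; `ξ' = p'.2 * p'.1 * p'.2⁻¹ =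
t⁻¹ ξ t`, `tv q' = t⁻¹ ξ t ξ⁻¹ t`, so `ξ'⁻¹ * tv q' * ξ' = t` is determined by `(p', q')`; then `p.2 = t p'.2`, `p.1 = p'.1`, `r.1`, `r.2`, `q`.
(4) `L = P ++ q :: T`, `|P| = a`: `f L = q :: P.map (cj (dd q)⁻¹) ++ T`, that is `f L = x :: (L.take a).map (cj (dd x)⁻¹) ++ L.drop (a + 1)`, `x` the entry at the place `a`.  (5) `L = p :: P ++ q :: T`, `|P| = a`: by (1) to `p :: q :: P' ++ T`,
then `f L = (mg p q).1 :: (mg p q).2 :: P' ++ T`.  Injective on lists of the same length. -/
def St_Frt : Prop :=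
  (∀ {G : Type} [Group G] (P T : List (G × G)) (q : G × G),
    LG (P ++ q :: T) (q :: (P.map (cj (dd q)⁻¹) ++ T))) ∧
  (∀ {G : Type} [Group G] (p q : G × G), LG [p, q] [(mg p q).1, (mg p q).2] ∧
    (mg p q).1.2 = q.2 * p.2) ∧
  (∀ {G : Type} [Group G], Function.Injective fun x : (G × G) × (G × G) => mg x.1 x.2) ∧
  (∀ {G : Type} [Group G] (j : ℕ) (O : Finset (List (G × G))), Cl j O → ∀ a, a < j →
    ∃ f : List (G × G) → List (G × G), (∀ L ∈ O, f L ∈ O) ∧ Set.InjOn f (O : Set (List (G × G))) ∧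
      ∀ L ∈ O, L[a]? = (f L)[0]? ∧ (f L).drop (a + 1) = L.drop (a + 1)) ∧
  ∀ {G : Type} [Group G] (j : ℕ) (O : Finset (List (G × G))), Cl j O → ∀ a, a + 1 < j →
    ∃ f : List (G × G) → List (G × G), (∀ L ∈ O, f L ∈ O) ∧ Set.InjOn f (O : Set (List (G × G))) ∧
      ∀ L ∈ O, hd2 (f L) = ((L[a + 1]?).getD (1, 1)).2 * hd2 L

/-- (Cub) The products of the letters of the tail can be moved to the first handle.
Proof.  Induction on `T` (for all `p`, `P`, `d`).  `T = []`: `d = 1`, nothing to do.  `T = t :: ts`.  If `d ∈ Ds H (ts.map Prod.snd)`: the induction hypothesis for `P ++ [t]`.  Otherwise `t.2 ∈ H` and `d = d' * t.2`, `d' ∈ Ds H (ts.map Prod.snd)`: by `St_Frt` (1), (2) (in context)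
`LG (p :: (P ++ t :: ts)) ((mg p t).1 :: (mg p t).2 :: (P' ++ ts))`, `(mg p t).1.2 = t.2 * p.2`; the induction hypothesis for `(mg p t).1`, `(mg p t).2 :: P'`, `d'` gives the value `d' * (t.2 * p.2) = d * p.2`. -/
def St_Cub : Prop := St_Frt → ∀ {G : Type} [Group G] (H : Subgroup G) (T P : List (G × G))
  (p : G × G) (d : G), d ∈ Ds H (T.map Prod.snd) →
  ∃ (p' : G × G) (P' : List (G × G)), LG (p :: (P ++ T)) (p' :: P') ∧ p'.2 = d * p.2

/-- (Hlf) A simple closed curve in the kernel.
Proof.  `G` finite: `Fintype`.  `n = Nat.log 2 |G| + 1`, `2 ^ n > |G|` (`Nat.lt_pow_succ_log_self`), `m = 4 n`, `s = 400000000 n`, `(1 + 1 / 400000000) ^ s ≥ 2 ^ n` (Bernoulli, `one_add_mul_le_pow`), `4 log |G| < 4 n log 2 ... < m`.  Let `L = L₁ ++ L₂` with `L₁ = L.take (1 + s * m)`,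
`O` the set of the `L'` with `LG L₁ L'` (finite: lists of a fixed length over a finite type; `List.finite_length_eq`), `Cl (1 + s * m) O` (`bBas`).  `St_Eng`: `j, O', b`.  `τ = List.drop (j - m)`, `W = hd2`, `u b = (b.headD (1, 1)).2`, `l b = b.map Prod.snd`.
`h1`: `St_Frt` (4) for `a = j - m`, `h2`: `St_Frt` (5) for `a + 1 = j - m` (`f` permutes `O'`, so `cnt O' (hd2 ∘ f) = cnt O' hd2`; entries of `τ L` are entries of `L`).  `St_Uni`: `H`.  `St_Grw`: `hf` from `St_Frt` (4) for the place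
`j - m + i`.  So some `L' = p :: (P ++ T) ∈ O'`, `T = τ L'`, has `p.2⁻¹ ∈ Ds H (T.map Prod.snd)`; `St_Cub`: `LG L' (p' :: P')`, `p'.2 = 1`; `p' :: P' ∈ O'`, so `LG L₁ (p' :: P' ++ b)`, and `LG L (p' :: P' ++ b ++ L₂)` (`bBas`, app with `p = []`). -/
def St_Hlf : Prop := St_Str → St_Uni → St_Dsb → St_Grw → St_Eng → St_Frt → St_Cub →
  ∀ {G : Type} [Group G] [Finite G] (L : List (G × G)),
  1 + 400000000 * (Nat.log 2 (Nat.card G) + 1) * (4 * (Nat.log 2 (Nat.card G) + 1)) ≤ L.length →
  ∃ (p : G × G) (L' : List (G × G)), LG L (p :: L') ∧ p.2 = 1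

/-- (Ded) From curves to handles.
Proof.  Claim, by induction on `r ≤ n := Nat.log 2 |G| + 1`: either the conclusion holds, or there are `M`, `Hs` with `LG L (M ++ Hs)`, `|Hs| = r`, all entries of `Hs` of the form `(1, y)`, and `2 ^ r ≤ |Gn Hs|` (order of the subgroup generated by the entries).  `r = 0`: `Hs = []`.  Step
(`r + 1 ≤ n`): `|M| = |L| - r ≥ K`, so `LG M (p :: M')` with `p.2 = 1`; `rt p = (1, x)`; move it to the right end of `M'` by swaps (`[q₀, q]` to `[q, cj (dd q)⁻¹ q₀]`: the first entry stays `1`): `LG (M ++ Hs) (M' ++ (1, x') :: Hs)`.  If `x' ∈ Gn Hs`: `bBlk` with `V = ⊥`, `x = 1`, `b = x'`, `u = x'⁻¹`, `L' = L = Hs`, at `y = 1`: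
`LG ((1, x') :: Hs) ((1, 1) :: Hs)`, and swaps (or `St_Frt`, (1)) move `(1, 1)` to the left end.  If `x' ∉ Gn Hs`: `Gn Hs < Gn ((1, x') :: Hs)`, so the order at least doubles (Lagrange).  At `r = n`: `2 ^ n > |G|`, impossible. -/
def St_Ded : Prop := St_Frt → ∀ {G : Type} [Group G] [Finite G] (K : ℕ),
  (∀ L : List (G × G), K ≤ L.length → ∃ (p : G × G) (L' : List (G × G)), LG L (p :: L') ∧ p.2 = 1) →
  ∀ L : List (G × G), K + Nat.log 2 (Nat.card G) + 1 ≤ L.length →
  ∃ L' : List (G × G), LG L ((1, 1) :: L')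

/-- (Any) Every homomorphism to a finite group kills a handle.
Proof.  `n = Nat.log 2 |Q| + 1`, `K = 1 + 1600000000 n ^ 2`, `K + n ≤ 2000000000 n ^ 2`.  `St_Hlf` and `St_Ded` for the list `lst ρ 0 h` (length `h`), then `bRea` with `m = 0`, `k = h`: `φ ∈ MCG h 0` with `lst (ρ φ) 0 h = (1, 1) :: L'`; the first entry is
`vls (ρ φ) 0`, that is `(ρ (φ (ga 0)), ρ (φ (gb 0)))`. -/
def St_Any : Prop := ∀ {Q : Type} [Group Q] [Finite Q] (h : ℕ),
  2000000000 * (Nat.log 2 (Nat.card Q) + 1) ^ 2 ≤ h → ∀ ρ : F h 0 →* Q, PWS.Dead ρ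

end Pool.Agent.PWL
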